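import Mathlib

/-!
Definitions for the problem on principal symmetric ideals whose square is a
principal symmetric ideal.  The polynomial ring in `d` variables over `k` is
`MvPolynomial (Fin d) k`, and a permutation `σ` of the indices acts by
`MvPolynomial.rename σ`, which sends each variable `X i` to `X (σ i)`.
-/

namespace Pool.Agent.Work.MP_e01960_al

open MvPolynomial

/-- The ideal `(f)_{S_d}` generated by the orbit of `f` under all permutations of
the variables. -/
noncomputable def symIdeal {k : Type*} [Field k] {d : ℕ} (f : MvPolynomial (Fin d) k) :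
    Ideal (MvPolynomial (Fin d) k) :=
  Ideal.span (Set.range fun σ : Equiv.Perm (Fin d) => rename σ f)

/-- `I` is a principal symmetric ideal (psi): it equals `(f)_{S_d}` for some homogeneous `f`. -/
def IsPSI {k : Type*} [Field k] {d : ℕ} (I : Ideal (MvPolynomial (Fin d) k)) : Prop :=
  ∃ (f : MvPolynomial (Fin d) k) (m : ℕ), f.IsHomogeneous m ∧ I = symIdeal f

/-- `f` is `k`-invariant under the symmetric subgroup `S_A`: every permutation fixing all
indices outside `A` sends `f` to a scalar multiple of `f`. -/
def KInvariantOn {k : Type*} [Field k] {d : ℕ} (f : MvPolynomial (Fin d) k)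
    (A : Finset (Fin d)) : Prop :=
  ∀ σ : Equiv.Perm (Fin d), (∀ i, i ∉ A → σ i = i) → ∃ c : k, rename σ f = C c * f

end Pool.Agent.Work.MP_e01960_al
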