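import Mathlib
import Pool.Agent.Work.MP_e01960_al.Defs

/-!
Proof that the question has a negative answer for `d = 7` over every field of
characteristic zero in which `-14` is a square.

The ideal is generated by an alternating polynomial `a` together with the products
`h1 * H i`, `h2 * H i`, where `h1`, `h2` are linearly independent symmetric polynomials and
`H 0, ..., H 6` is a family permuted by the symmetric group in the standard way, with
`∑ H i = 0` and `∑ (H i) ^ 2 = 0`.  Such a family exists by Springer's theorem on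
quadratic forms and extensions of odd degree: the vector `(1,1,1,1,b,b,c)` is isotropic and its
stabiliser has odd index `105` in the symmetric group.
-/

namespace Pool.Agent.Work.MP_e01960_al

section springer
open Polynomial

theorem exists_odd_factor {K : Type*} [Field K] (n : ℕ) : ∀ h : K[X], h.natDegree = n → Odd n →
    ∃ g, Irreducible g ∧ Odd g.natDegree ∧ g ∣ h := by
  induction n using Nat.strong_induction_on with
  | _ n ih =>
    intro h hn hodd
    have hpos : 0 < h.natDegree := by rw [hn]; exact hodd.pos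
    have h0 : h ≠ 0 := by rintro rfl; simp at hpos
    obtain ⟨g, hg, q, rfl⟩ := exists_irreducible_of_natDegree_pos hpos
    by_cases hgo : Odd g.natDegree
    · exact ⟨g, hg, hgo, dvd_mul_right _ _⟩
    · have hq : q ≠ 0 := right_ne_zero_of_mul h0
      rw [natDegree_mul hg.ne_zero hq] at hn
      have hgpos : 0 < g.natDegree := hg.natDegree_pos
      have hqo : Odd q.natDegree := by
        rw [← hn, Nat.odd_add] at hodd
        by_contra hc
        rw [Nat.not_odd_iff_even] at hc
        exact hgo (hodd.2 hc)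
      obtain ⟨g', hg', hgo', hd⟩ := ih q.natDegree (by omega) q rfl hqo
      exact ⟨g', hg', hgo', hd.mul_left _⟩

/-- Springer's theorem on odd degree extensions, in polynomial form. -/
theorem springer {K : Type*} [Field K] {m : ℕ} (B : Fin m → Fin m → K) (n : ℕ) :
    ∀ g : K[X], Irreducible g → g.natDegree = n → Odd n →
    (∃ v : Fin m → K[X], (∃ i, ¬ g ∣ v i) ∧ g ∣ ∑ i, ∑ j, C (B i j) * (v i * v j)) →
    ∃ w : Fin m → K, w ≠ 0 ∧ ∑ i, ∑ j, B i j * (w i * w j) = 0 := by
  classical
  induction n using Nat.strong_induction_on with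
  | _ n ih =>
    intro g hg hn hodd hv
    by_contra hani
    push Not at hani
    let P : ℕ → Prop := fun D => ∃ v : Fin m → K[X], (∀ i, (v i).natDegree ≤ D) ∧ (∃ i, ¬ g ∣ v i) ∧
      g ∣ ∑ i, ∑ j, C (B i j) * (v i * v j)
    have hgpos : 0 < g.natDegree := hg.natDegree_pos
    have hPn : P (n - 1) := by
      obtain ⟨v, ⟨i, hi⟩, hd⟩ := hv
      refine ⟨fun i => v i % g, ?_, ⟨i, ?_⟩, ?_⟩
      · intro i
        have := natDegree_mod_lt (v i) (q := g) hgpos.ne'
        show (v i % g).natDegree ≤ n - 1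
        omega
      · rwa [EuclideanDomain.dvd_mod_iff (dvd_refl g)]
      · rw [← AdjoinRoot.mk_eq_zero] at hd ⊢
        rw [← hd]
        simp only [map_sum, map_mul]
        have hmk : ∀ i, AdjoinRoot.mk g (v i % g) = AdjoinRoot.mk g (v i) := by
          intro i
          rw [AdjoinRoot.mk_eq_mk]
          have := EuclideanDomain.div_add_mod (v i) g
          refine ⟨- (v i / g), ?_⟩
          linear_combination this
        simp only [hmk]
    have hex : ∃ D, P D := ⟨_, hPn⟩
    set D := Nat.find hex with hD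
    obtain ⟨v, hvD, hvg, hvQ⟩ := Nat.find_spec hex
    have hmin : ∀ D', D' < D → ¬ P D' := fun D' h => Nat.find_min hex h
    have hDn : D ≤ n - 1 := Nat.find_min' hex hPn
    have hDn' : D < n := by omega
    -- no common irreducible factor
    have hb : ∀ h1 : K[X], Irreducible h1 → ∃ i, ¬ h1 ∣ v i := by
      intro h1 hh1
      by_contra hcon
      push Not at hcon
      choose u hu using hcon
      obtain ⟨i, hi⟩ := hvg
      have hvi : v i ≠ 0 := by intro h0; apply hi; rw [h0]; exact dvd_zero _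
      have hui : u i ≠ 0 := by
        intro h0; apply hvi; rw [hu i, h0, mul_zero]
      have hh1pos : 0 < h1.natDegree := hh1.natDegree_pos
      have hDpos : 1 ≤ D := by
        have := hvD i
        rw [hu i, natDegree_mul hh1.ne_zero hui] at this
        omega
      apply hmin (D - 1) (by omega)
      refine ⟨u, ?_, ⟨i, ?_⟩, ?_⟩
      · intro j
        by_cases huj : u j = 0
        · rw [huj]; simp
        · have := hvD j
          rw [hu j, natDegree_mul hh1.ne_zero huj] at this
          omega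
      · intro hc
        apply hi
        rw [hu i]
        exact hc.mul_left _
      · have hQ : ∑ i, ∑ j, C (B i j) * (v i * v j) = h1 ^ 2 * ∑ i, ∑ j, C (B i j) * (u i * u j) := by
          rw [Finset.mul_sum]
          refine Finset.sum_congr rfl fun a _ => ?_
          rw [Finset.mul_sum]
          refine Finset.sum_congr rfl fun b _ => ?_
          rw [hu a, hu b]; ring
        rw [hQ] at hvQ
        rcases hg.prime.dvd_or_dvd hvQ with h | h
        · exfalso
          apply hi
          rw [hu i]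
          exact (hg.prime.dvd_of_dvd_pow h).mul_right _
        · exact h
    -- leading vector
    let w : Fin m → K := fun i => (v i).coeff D
    have hw : w ≠ 0 := by
      intro hw0
      have hw' : ∀ i, (v i).coeff D = 0 := fun i => congrFun hw0 i
      rcases Nat.eq_zero_or_pos D with h0 | hpos
      · obtain ⟨i, hi⟩ := hvg
        apply hi
        have h1 := hvD i
        have h2 : v i = C ((v i).coeff 0) := eq_C_of_natDegree_le_zero (by omega)
        have h3 := hw' i
        rw [h0] at h3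
        rw [h2, h3]; simp
      · apply hmin (D - 1) (by omega)
        refine ⟨v, ?_, hvg, hvQ⟩
        intro i
        have h1 := hvD i
        rcases Nat.lt_or_ge (v i).natDegree D with h | h
        · omega
        · exfalso
          have h2 : (v i).natDegree = D := le_antisymm h1 h
          have h3 := hw' i
          rw [← h2] at h3
          have h4 : v i = 0 := by rwa [coeff_natDegree, leadingCoeff_eq_zero] at h3
          rw [h4] at h2
          simp at h2
          omega
    have hcoeff : (∑ i, ∑ j, C (B i j) * (v i * v j)).coeff (D + D) = ∑ i, ∑ j, B i j * (w i * w j) := by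
      simp only [finsetSum_coeff, coeff_C_mul]
      refine Finset.sum_congr rfl fun a _ => Finset.sum_congr rfl fun b _ => ?_
      rw [coeff_mul_add_eq_of_natDegree_le (hvD a) (hvD b)]
    have hQne := hani w hw
    rw [← hcoeff] at hQne
    have hdegle : (∑ i, ∑ j, C (B i j) * (v i * v j)).natDegree ≤ D + D := by
      apply natDegree_sum_le_of_forall_le
      intro a _
      apply natDegree_sum_le_of_forall_le
      intro b _
      refine (natDegree_C_mul_le _ _).trans ?_
      refine natDegree_mul_le.trans ?_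
      exact add_le_add (hvD a) (hvD b)
    have hdeg : (∑ i, ∑ j, C (B i j) * (v i * v j)).natDegree = D + D :=
      le_antisymm hdegle (le_natDegree_of_ne_zero hQne)
    obtain ⟨h, hh⟩ := hvQ
    have hQ0 : (∑ i, ∑ j, C (B i j) * (v i * v j)) ≠ 0 := by
      intro h0; rw [h0] at hQne; simp at hQne
    have hh0 : h ≠ 0 := by
      intro h0; apply hQ0; rw [hh, h0, mul_zero]
    rw [hh, natDegree_mul hg.ne_zero hh0, hn] at hdeg
    have hhodd : Odd h.natDegree := by
      have : Even (n + h.natDegree) := by rw [hdeg]; exact ⟨D, rfl⟩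
      rw [Nat.even_add] at this
      by_contra hc
      rw [Nat.not_odd_iff_even] at hc
      exact (Nat.not_even_iff_odd.2 hodd) (this.2 hc)
    obtain ⟨h1, hh1, hh1odd, hh1d⟩ := exists_odd_factor _ h rfl hhodd
    have hle : h1.natDegree ≤ h.natDegree := natDegree_le_of_dvd hh1d hh0
    obtain ⟨w', hw', hw'0⟩ := ih h1.natDegree (by omega) h1 hh1 rfl hh1odd
      ⟨v, hb h1 hh1, by rw [hh]; exact hh1d.mul_left _⟩
    exact hani w' hw' hw'0

end springer

section iso
open Polynomial MulAction

theorem natDegree_minpoly_fixed {G F : Type*} [Group G] [Fintype G] [Field F] [MulSemiringAction G F]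
    (x : F) : (FixedPoints.minpoly G F x).natDegree = Nat.card (G ⧸ stabilizer G x) := by
  classical
  refine (Polynomial.natDegree_toSubring _ _ _).trans ?_
  rw [prodXSubSMul]
  rw [natDegree_prod_of_monic _ _ (fun _ _ => monic_X_sub_C _)]
  simp [Nat.card_eq_fintype_card]

theorem mem_adjoin_of_stab {G F : Type*} [Group G] [Fintype G] [Field F] [MulSemiringAction G F]
    (θ l : F) (h : ∀ g : G, g • θ = θ → g • l = l) :
    ∃ p : (FixedPoints.subfield G F)[X], aeval θ p = l := by
  classical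
  have h1 : l ∈ IntermediateField.adjoin (FixedPoints.subfield G F) {θ} := by
    rw [← IsGalois.fixedField_fixingSubgroup (IntermediateField.adjoin (FixedPoints.subfield G F) {θ})]
    rw [IntermediateField.mem_fixedField_iff]
    intro f hf
    rw [IntermediateField.mem_fixingSubgroup_iff] at hf
    obtain ⟨g, hg⟩ := FixedPoints.toAlgAut_surjective G F f
    have h2 : ∀ y : F, f y = g • y := by
      intro y; rw [← hg]; rfl
    rw [h2]
    apply h
    rw [← h2]
    exact hf θ (IntermediateField.mem_adjoin_simple_self _ θ)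
  have h3 : l ∈ (IntermediateField.adjoin (FixedPoints.subfield G F) {θ}).toSubalgebra := h1
  rw [IntermediateField.adjoin_simple_toSubalgebra_of_isAlgebraic
    (FixedPoints.isIntegral G F θ).isAlgebraic, Algebra.adjoin_singleton_eq_range_aeval] at h3
  obtain ⟨p, hp⟩ := h3
  exact ⟨p, hp⟩

theorem exists_isotropic {n : ℕ} {E : Type*} [Field E]
    [MulSemiringAction (Equiv.Perm (Fin (n+1))) E] (hn : ((n+1 : ℕ) : E) ≠ 0)
    (x : Fin (n+1) → E) (hx : Function.Injective x)
    (hσ : ∀ (σ : Equiv.Perm (Fin (n+1))) i, σ • x i = x (σ i))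
    (c : Fin (n+1) → E) (hc : ∀ (σ : Equiv.Perm (Fin (n+1))) i, σ • c i = c i)
    (hc0 : c ≠ 0) (hcs : ∑ i, c i = 0) (hcq : ∑ i, c i ^ 2 = 0)
    (θ : E) (hθ : ∀ σ : Equiv.Perm (Fin (n+1)), σ • θ = θ → ∀ i, c (σ i) = c i)
    (hodd : Odd (Nat.card (Equiv.Perm (Fin (n+1)) ⧸ stabilizer (Equiv.Perm (Fin (n+1))) θ))) :
    ∃ F : Fin (n+1) → E, F ≠ 0 ∧ (∀ (σ : Equiv.Perm (Fin (n+1))) i, σ • F i = F (σ i)) ∧
      ∑ i, F i = 0 ∧ ∑ i, F i ^ 2 = 0 := by
  classical
  let G := Equiv.Perm (Fin (n+1))
  let K := FixedPoints.subfield G E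
  -- Vandermonde coefficients of `c`
  have hdet : (Matrix.vandermonde x).det ≠ 0 := Matrix.det_vandermonde_ne_zero_iff.2 hx
  have hunit : IsUnit (Matrix.vandermonde x).det := hdet.isUnit
  let l : Fin (n+1) → E := (Matrix.vandermonde x)⁻¹.mulVec c
  have hl : ∀ i, ∑ j : Fin (n+1), x i ^ (j : ℕ) * l j = c i := by
    intro i
    have h1 : (Matrix.vandermonde x).mulVec l = c := by
      rw [Matrix.mulVec_mulVec, Matrix.mul_nonsing_inv _ hunit, Matrix.one_mulVec]
    have := congrFun h1 i
    simpa [Matrix.mulVec, dotProduct, Matrix.vandermonde_apply] using this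
  have huniq : ∀ l' : Fin (n+1) → E, (∀ i, ∑ j : Fin (n+1), x i ^ (j : ℕ) * l' j = c i) → l' = l := by
    intro l' hl'
    have h1 : (Matrix.vandermonde x).mulVec l' = c := by
      funext i
      simpa [Matrix.mulVec, dotProduct, Matrix.vandermonde_apply] using hl' i
    show l' = (Matrix.vandermonde x)⁻¹.mulVec c
    rw [← h1, Matrix.mulVec_mulVec, Matrix.nonsing_inv_mul _ hunit, Matrix.one_mulVec]
  have hlfix : ∀ (j : Fin (n+1)) (σ : G), σ • θ = θ → σ • l j = l j := by
    intro j σ hs
    have hcσ := hθ σ hs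
    have : (fun j => σ • l j) = l := by
      apply huniq
      intro i
      obtain ⟨i', rfl⟩ := σ.surjective i
      have h1 := congrArg (fun y => σ • y) (hl i')
      simp only [Finset.smul_sum, smul_mul', smul_pow', hσ, hc] at h1
      rw [h1, hcσ]
    exact congrFun this j
  choose p hp using fun j => mem_adjoin_of_stab (G := G) θ (l j) (hlfix j)
  -- the traces
  let P : ℕ → E := fun j => ∑ i, x i ^ j
  have hP : ∀ j (σ : G), σ • P j = P j := by
    intro j σ
    simp only [P, Finset.smul_sum, smul_pow', hσ]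
    exact Equiv.sum_comp σ (fun i => x i ^ j)
  let m : Fin n → Fin (n+1) → E := fun j i => x i ^ ((j : ℕ) + 1) - P ((j : ℕ) + 1) / ((n+1 : ℕ) : E)
  have hnat : ∀ (σ : G), σ • ((n+1 : ℕ) : E) = ((n+1 : ℕ) : E) := by
    intro σ
    exact map_natCast (MulSemiringAction.toRingHom G E σ) (n+1)
  have hm : ∀ j i (σ : G), σ • m j i = m j (σ i) := by
    intro j i σ
    simp only [m, smul_sub, smul_pow', hσ, smul_div₀', hP, hnat]
  have hmsum : ∀ j, ∑ i, m j i = 0 := by
    intro j
    simp only [m, Finset.sum_sub_distrib, Finset.sum_const, Finset.card_univ, Fintype.card_fin,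
      nsmul_eq_mul]
    rw [mul_div_cancel₀ _ hn]
    simp [P]
  let S : Fin n → Fin n → K := fun j j' => ⟨∑ i, m j i * m j' i, by
    intro σ
    simp only [Finset.smul_sum, smul_mul', hm]
    exact Equiv.sum_comp σ (fun i => m j i * m j' i)⟩
  have hcm : ∀ i, ∑ j : Fin n, l j.succ * m j i = c i := by
    intro i
    have h1 : ∀ i, c i = l 0 + ∑ j : Fin n, x i ^ ((j : ℕ) + 1) * l j.succ := by
      intro i
      rw [← hl i, Fin.sum_univ_succ]
      simp
    have h2 : (0 : E) = ((n+1 : ℕ) : E) * l 0 + ∑ j : Fin n, P ((j : ℕ) + 1) * l j.succ := by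
      rw [← hcs, Finset.sum_congr rfl (fun i _ => h1 i), Finset.sum_add_distrib, Finset.sum_comm]
      simp only [Finset.sum_const, Finset.card_univ, Fintype.card_fin, nsmul_eq_mul, P,
        Finset.sum_mul]
    have h3 : l 0 = - ∑ j : Fin n, P ((j : ℕ) + 1) / ((n+1 : ℕ) : E) * l j.succ := by
      have h4 : ∑ j : Fin n, P ((j : ℕ) + 1) / ((n+1 : ℕ) : E) * l j.succ =
          (∑ j : Fin n, P ((j : ℕ) + 1) * l j.succ) / ((n+1 : ℕ) : E) := by
        rw [Finset.sum_div]
        refine Finset.sum_congr rfl fun j _ => ?_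
        ring
      rw [h4]
      field_simp
      linear_combination (-1 : E) * h2
    rw [h1 i, h3]
    rw [← Finset.sum_neg_distrib, ← Finset.sum_add_distrib]
    refine Finset.sum_congr rfl fun j _ => ?_
    simp only [m]
    ring
  -- apply Springer
  obtain ⟨w, hw0, hwS⟩ := springer S _ (FixedPoints.minpoly G E θ) (FixedPoints.minpoly.irreducible G E θ)
    rfl (by rw [natDegree_minpoly_fixed]; exact hodd)
    ⟨fun j => p j.succ, by
      by_contra hcon
      push Not at hcon
      apply hc0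
      funext i
      rw [← hcm i]
      apply Finset.sum_eq_zero
      intro j _
      have h1 : l j.succ = 0 := by
        rw [← hp j.succ]
        obtain ⟨q, hq⟩ := hcon j
        rw [hq, map_mul, FixedPoints.minpoly_eq_minpoly, minpoly.aeval, zero_mul]
      rw [h1, zero_mul],
     by
      rw [FixedPoints.minpoly_eq_minpoly]
      apply minpoly.dvd
      simp only [map_sum, map_mul, aeval_C, hp]
      have h1 : ∀ j j' : Fin n, (algebraMap (FixedPoints.subfield G E) E) (S j j') * (l j.succ * l j'.succ) =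
          ∑ i, (l j.succ * m j i) * (l j'.succ * m j' i) := by
        intro j j'
        show (∑ i, m j i * m j' i) * (l j.succ * l j'.succ) = _
        rw [Finset.sum_mul]
        refine Finset.sum_congr rfl fun i _ => ?_
        ring
      simp only [h1]
      rw [← hcq]
      have h2 : ∀ i, c i ^ 2 = ∑ j : Fin n, ∑ j' : Fin n, (l j.succ * m j i) * (l j'.succ * m j' i) := by
        intro i
        rw [← hcm i, sq, Finset.sum_mul_sum]
      rw [Finset.sum_congr rfl (fun i _ => h2 i)]
      symm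
      rw [Finset.sum_comm]
      refine Finset.sum_congr rfl fun j _ => ?_
      rw [Finset.sum_comm]⟩
  refine ⟨fun i => ∑ j : Fin n, (w j : E) * m j i, ?_, ?_, ?_, ?_⟩
  · intro hF
    apply hw0
    -- the polynomial with coefficients w vanishes at all x i
    let q : Fin (n+1) → E := Fin.cons (- ∑ j : Fin n, (w j : E) * (P ((j : ℕ) + 1) / ((n+1 : ℕ) : E)))
      (fun j => (w j : E))
    have hq : (Matrix.vandermonde x).mulVec q = 0 := by
      funext i
      simp only [Matrix.mulVec, dotProduct, Matrix.vandermonde_apply, Pi.zero_apply]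
      rw [Fin.sum_univ_succ]
      simp only [Fin.val_zero, pow_zero, one_mul, q, Fin.cons_zero, Fin.cons_succ, Fin.val_succ]
      have h1 := congrFun hF i
      simp only [m, Pi.zero_apply] at h1
      rw [← h1, ← Finset.sum_neg_distrib, ← Finset.sum_add_distrib]
      refine Finset.sum_congr rfl fun j _ => ?_
      ring
    have hq0 : q = 0 := by
      by_contra hne
      exact hdet (Matrix.exists_mulVec_eq_zero_iff.1 ⟨q, hne, hq⟩)
    funext j
    have := congrFun hq0 j.succ
    simp only [q, Fin.cons_succ, Pi.zero_apply] at this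
    exact Subtype.ext this
  · intro σ i
    simp only [Finset.smul_sum, smul_mul', hm]
    refine Finset.sum_congr rfl fun j _ => ?_
    rw [(w j).2 σ]
  · rw [Finset.sum_comm]
    simp only [← Finset.mul_sum, hmsum, mul_zero, Finset.sum_const_zero]
  · have h1 : ∀ i, (∑ j : Fin n, (w j : E) * m j i) ^ 2 =
        ∑ j : Fin n, ∑ j' : Fin n, (w j : E) * m j i * ((w j' : E) * m j' i) := by
      intro i; rw [sq, Finset.sum_mul_sum]
    rw [Finset.sum_congr rfl (fun i _ => h1 i), Finset.sum_comm]
    have h2 := congrArg (fun y : K => (y : E)) hwS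
    simp only [AddSubmonoidClass.coe_finsetSum, MulMemClass.coe_mul, ZeroMemClass.coe_zero] at h2
    rw [← h2]
    refine Finset.sum_congr rfl fun j _ => ?_
    rw [Finset.sum_comm]
    refine Finset.sum_congr rfl fun j' _ => ?_
    show _ = (∑ i, m j i * m j' i) * _
    rw [Finset.sum_mul]
    refine Finset.sum_congr rfl fun i _ => ?_
    ring

end iso


section family
open MvPolynomial MulAction

/-- the permutation action on polynomials -/
noncomputable abbrev permAct (k : Type*) [Field k] (n : ℕ) :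
    MulSemiringAction (Equiv.Perm (Fin n)) (MvPolynomial (Fin n) k) where
  smul σ p := rename σ p
  one_smul p := by
    show rename (1 : Equiv.Perm (Fin n)) p = p
    simp
  mul_smul σ τ p := by
    show rename (σ * τ : Equiv.Perm (Fin n)) p = rename σ (rename τ p)
    rw [rename_rename]; rfl
  smul_zero σ := map_zero (rename σ)
  smul_add σ := map_add (rename σ)
  smul_one σ := map_one (rename σ)
  smul_mul σ := map_mul (rename σ)

def cc : Fin 7 → Fin 3 := ![0, 0, 0, 0, 1, 1, 2]

theorem card_cc : Fintype.card {σ : Equiv.Perm (Fin 7) // cc ∘ σ = cc} = 48 := by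
  rw [DomMulAct.stabilizer_card cc]
  decide

theorem exists_fraction_family (k : Type*) [Field k] [CharZero k] (s : k) (hs : s ^ 2 = -14) :
    letI := permAct k 7
    letI := IsFractionRing.mulSemiringAction (Equiv.Perm (Fin 7)) (MvPolynomial (Fin 7) k)
      (FractionRing (MvPolynomial (Fin 7) k))
    ∃ F : Fin 7 → FractionRing (MvPolynomial (Fin 7) k), F ≠ 0 ∧
      (∀ (σ : Equiv.Perm (Fin 7)) i, σ • F i = F (σ i)) ∧
      ∑ i, F i = 0 ∧ ∑ i, F i ^ 2 = 0 := by
  let _ := permAct k 7
  let _ := IsFractionRing.mulSemiringAction (Equiv.Perm (Fin 7)) (MvPolynomial (Fin 7) k)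
      (FractionRing (MvPolynomial (Fin 7) k))
  have : SMulDistribClass (Equiv.Perm (Fin 7)) (MvPolynomial (Fin 7) k)
      (FractionRing (MvPolynomial (Fin 7) k)) := IsFractionRing.smulDistribClass _ _ _
  let A := MvPolynomial (Fin 7) k
  let E := FractionRing A
  have hinj : Function.Injective (algebraMap A E) := IsFractionRing.injective A E
  have hact : ∀ (σ : Equiv.Perm (Fin 7)) (p : A), σ • algebraMap A E p = algebraMap A E (rename σ p) := by
    intro σ p
    exact (algebraMap.coe_smul' σ p (C := E)).symm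
  let β : k := (-4 + s) / 3
  let v : Fin 3 → k := ![1, β, -4 - 2 * β]
  let θ : E := algebraMap A E (∑ i, C ((cc i : ℕ) : k) * X i)
  have hβ : 3 * β ^ 2 + 8 * β + 10 = 0 := by
    simp only [β]; field_simp; linear_combination (1:k) * hs
  have hθ : ∀ σ : Equiv.Perm (Fin 7), σ • θ = θ ↔ cc ∘ σ = cc := by
    intro σ
    rw [hact]
    constructor
    · intro h
      have h1 : (∑ i, C ((cc i : ℕ) : k) * X (σ i) : MvPolynomial (Fin 7) k) =
          ∑ i, C ((cc i : ℕ) : k) * X i := by
        have h0 : rename σ (∑ i, C ((cc i : ℕ) : k) * X i : MvPolynomial (Fin 7) k) =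
          ∑ i, C ((cc i : ℕ) : k) * X i := hinj h
        rw [← h0]
        simp only [map_sum, map_mul, rename_C, rename_X]
      funext i
      have h2 := congrArg (coeff (Finsupp.single (σ i) 1)) h1
      simp only [coeff_sum, coeff_C_mul, coeff_X] at h2
      have e1 : ∀ x : Fin 7, (Finsupp.single (σ x) 1 = (Finsupp.single (σ i) 1 : Fin 7 →₀ ℕ)) ↔ x = i := by
        intro x
        rw [Finsupp.single_left_inj one_ne_zero]
        exact σ.injective.eq_iff
      have e2 : ∀ x : Fin 7, (Finsupp.single x 1 = (Finsupp.single (σ i) 1 : Fin 7 →₀ ℕ)) ↔ x = σ i := by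
        intro x
        rw [Finsupp.single_left_inj one_ne_zero]
      simp only [e1, e2, mul_ite, mul_one, mul_zero, Finset.sum_ite_eq', Finset.mem_univ, if_true] at h2
      have h3 : ((cc i : ℕ) : k) = ((cc (σ i) : ℕ) : k) := h2
      have h4 : (cc i : ℕ) = (cc (σ i) : ℕ) := by exact_mod_cast h3
      exact (Fin.ext h4).symm
    · intro h
      show algebraMap A E _ = algebraMap A E _
      congr 1
      simp only [map_sum, map_mul, rename_C, rename_X]
      rw [← Equiv.sum_comp σ (fun i => C ((cc i : ℕ) : k) * X i)]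
      refine Finset.sum_congr rfl fun i _ => ?_
      have := congrFun h i
      simp only [Function.comp] at this
      rw [this]
  refine exists_isotropic (n := 6) (E := E) (by norm_num) (fun i => algebraMap A E (X i)) ?_ ?_
    (fun i => algebraMap A E (C (v (cc i)))) ?_ ?_ ?_ ?_ θ ?_ ?_
  · intro i j hij
    exact X_injective (hinj hij)
  · intro σ i
    rw [hact, rename_X]
  · intro σ i
    rw [hact, rename_C]
  · intro h
    have h1 := congrFun h 0
    have h2 : algebraMap A E (C (v (cc 0))) = 0 := h1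
    rw [map_eq_zero_iff _ hinj, C_eq_zero] at h2
    simp [v, cc] at h2
  · rw [← map_sum, ← map_sum]
    have : ∑ i, v (cc i) = 0 := by
      simp [Fin.sum_univ_succ, v, cc]; ring
    rw [this]; simp
  · simp only [← map_pow]
    rw [← map_sum, ← map_sum]
    have : ∑ i, v (cc i) ^ 2 = 0 := by
      simp [Fin.sum_univ_succ, v, cc]; linear_combination (2:k) * hβ
    rw [this]; simp
  · intro σ hσ i
    have := congrFun ((hθ σ).1 hσ) i
    simp only [Function.comp] at this
    rw [this]
  · have h1 : Nat.card (stabilizer (Equiv.Perm (Fin 7)) θ) = 48 := by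
      rw [← card_cc, ← Nat.card_eq_fintype_card]
      apply Nat.card_congr
      exact Equiv.subtypeEquivRight (fun σ => hθ σ)
    have h2 := Subgroup.card_mul_index (stabilizer (Equiv.Perm (Fin 7)) θ)
    rw [h1, Nat.card_eq_fintype_card, Fintype.card_perm, Fintype.card_fin] at h2
    have h3 : (stabilizer (Equiv.Perm (Fin 7)) θ).index = 105 := by
      have : Nat.factorial 7 = 48 * 105 := by decide
      rw [this] at h2
      exact Nat.eq_of_mul_eq_mul_left (by norm_num) h2
    have h4 : Nat.card (Equiv.Perm (Fin 7) ⧸ stabilizer (Equiv.Perm (Fin 7)) θ) = 105 := h3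
    rw [h4]
    decide

end family


section family2
open MvPolynomial

theorem hc_mul {σ R : Type*} [CommSemiring R] (n : ℕ) (p q : MvPolynomial σ R) :
    homogeneousComponent n (p * q) =
      ∑ ij ∈ Finset.HasAntidiagonal.antidiagonal n, homogeneousComponent ij.1 p * homogeneousComponent ij.2 q := by
  classical
  ext d
  rw [coeff_homogeneousComponent, coeff_sum]
  simp_rw [coeff_mul, coeff_homogeneousComponent]
  rw [Finset.sum_comm]
  by_cases hd : d.degree = n
  · rw [if_pos hd]
    refine Finset.sum_congr rfl fun x hx => ?_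
    rw [Finset.HasAntidiagonal.mem_antidiagonal] at hx
    rw [Finset.sum_eq_single (x.1.degree, x.2.degree)]
    · simp
    · rintro ⟨i, j⟩ _ hne
      by_cases h1 : x.1.degree = i
      · by_cases h2 : x.2.degree = j
        · exact absurd (by rw [h1, h2]) hne
        · simp [h2]
      · simp [h1]
    · intro hnot
      exfalso
      apply hnot
      rw [Finset.HasAntidiagonal.mem_antidiagonal, ← hd, ← hx]
      simp
  · rw [if_neg hd]
    symm
    apply Finset.sum_eq_zero
    intro x hx
    rw [Finset.HasAntidiagonal.mem_antidiagonal] at hx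
    apply Finset.sum_eq_zero
    rintro ⟨i, j⟩ hij
    rw [Finset.HasAntidiagonal.mem_antidiagonal] at hij
    by_cases h1 : x.1.degree = i
    · by_cases h2 : x.2.degree = j
      · exfalso
        apply hd
        rw [← hx, ← hij, ← h1, ← h2]
        simp
      · simp [h2]
    · simp [h1]

theorem hc_sq_top {σ R : Type*} [CommSemiring R] (e : ℕ) (p : MvPolynomial σ R) (hp : p.totalDegree ≤ e) :
    homogeneousComponent (e + e) (p ^ 2) = homogeneousComponent e p ^ 2 := by
  rw [sq, hc_mul, Finset.sum_eq_single (e, e), sq]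
  · rintro ⟨i, j⟩ hij hne
    rw [Finset.HasAntidiagonal.mem_antidiagonal] at hij
    simp only at hij
    rcases Nat.lt_or_ge e i with h | h
    · simp only
      rw [homogeneousComponent_eq_zero i p (lt_of_le_of_lt hp h), zero_mul]
    · rcases Nat.lt_or_ge e j with h' | h'
      · simp only
        rw [homogeneousComponent_eq_zero j p (lt_of_le_of_lt hp h'), mul_zero]
      · exfalso
        apply hne
        have : i = e := by omega
        have : j = e := by omega
        simp [*]
  · intro h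
    exact absurd (by rw [Finset.HasAntidiagonal.mem_antidiagonal]) h

theorem hc_top_ne_zero {σ R : Type*} [CommSemiring R] (p : MvPolynomial σ R) (hp : p ≠ 0) :
    homogeneousComponent p.totalDegree p ≠ 0 := by
  classical
  intro h
  have hne : p.support.Nonempty := by
    rw [Finset.nonempty_iff_ne_empty]
    intro h0
    exact hp (support_eq_empty.1 h0)
  obtain ⟨d, hd, hdeg⟩ := Finset.exists_mem_eq_sup p.support hne (fun m => m.sum fun _ e => e)
  have h1 := congrArg (coeff d) h
  rw [coeff_homogeneousComponent, if_pos, coeff_zero] at h1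
  · exact (mem_support_iff.1 hd) h1
  · rw [totalDegree, hdeg]
    rfl

theorem exists_poly_family (k : Type*) [Field k] [CharZero k] (s : k) (hs : s ^ 2 = -14) :
    ∃ e : ℕ, ∃ H : Fin 7 → MvPolynomial (Fin 7) k, (∃ i, H i ≠ 0) ∧ (∀ i, (H i).IsHomogeneous e) ∧
      (∀ (σ : Equiv.Perm (Fin 7)) i, rename σ (H i) = H (σ i)) ∧
      ∑ i, H i = 0 ∧ ∑ i, H i ^ 2 = 0 := by
  classical
  let _ := permAct k 7
  let _ := IsFractionRing.mulSemiringAction (Equiv.Perm (Fin 7)) (MvPolynomial (Fin 7) k)
      (FractionRing (MvPolynomial (Fin 7) k))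
  have : SMulDistribClass (Equiv.Perm (Fin 7)) (MvPolynomial (Fin 7) k)
      (FractionRing (MvPolynomial (Fin 7) k)) := IsFractionRing.smulDistribClass _ _ _
  obtain ⟨F, hF0, hFσ, hFs, hFq⟩ := exists_fraction_family k s hs
  let A := MvPolynomial (Fin 7) k
  let E := FractionRing A
  have hinj : Function.Injective (algebraMap A E) := IsFractionRing.injective A E
  have hact : ∀ (σ : Equiv.Perm (Fin 7)) (p : A), σ • algebraMap A E p = algebraMap A E (rename σ p) := by
    intro σ p
    exact (algebraMap.coe_smul' σ p (C := E)).symm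
  obtain ⟨b, hb⟩ := IsLocalization.exist_integer_multiples_of_finite (nonZeroDivisors A) F
  choose a ha using hb
  have hb0 : (b : A) ≠ 0 := nonZeroDivisors.coe_ne_zero b
  let D : A := ∏ σ : Equiv.Perm (Fin 7), rename σ (b : A)
  have hD0 : D ≠ 0 := by
    rw [Finset.prod_ne_zero_iff]
    intro σ _ h
    exact hb0 ((rename_injective σ σ.injective) (by rw [h, map_zero]))
  have hDσ : ∀ τ : Equiv.Perm (Fin 7), rename τ D = D := by
    intro τ
    simp only [D, map_prod, rename_rename]
    exact Fintype.prod_equiv (Equiv.mulLeft τ) _ _ (fun σ => rfl)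
  have hDb : ∃ D', D = D' * (b : A) := by
    refine ⟨∏ σ ∈ Finset.univ.erase (1 : Equiv.Perm (Fin 7)), rename σ (b : A), ?_⟩
    have h1 := Finset.prod_erase_mul Finset.univ (fun σ : Equiv.Perm (Fin 7) => rename σ (b : A))
      (Finset.mem_univ (1 : Equiv.Perm (Fin 7)))
    have h2 : rename (1 : Equiv.Perm (Fin 7)) (b : A) = b := by simp
    simp only [h2] at h1
    exact h1.symm
  obtain ⟨D', hD'⟩ := hDb
  have hG : ∀ i, algebraMap A E (D' * a i) = algebraMap A E D * F i := by
    intro i
    rw [map_mul, ha i, hD', map_mul, Algebra.smul_def]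
    ring
  let Gp : Fin 7 → A := fun i => D' * a i
  have hDE : algebraMap A E D ≠ 0 := by
    rw [Ne, map_eq_zero_iff _ hinj]; exact hD0
  have hGσ : ∀ (σ : Equiv.Perm (Fin 7)) i, rename σ (Gp i) = Gp (σ i) := by
    intro σ i
    apply hinj
    rw [← hact, hG, hG, smul_mul', hact, hDσ, hFσ]
  have hGs : ∑ i, Gp i = 0 := by
    apply hinj
    rw [map_sum, map_zero]
    simp only [Gp, hG]
    rw [← Finset.mul_sum, hFs, mul_zero]
  have hGq : ∑ i, Gp i ^ 2 = 0 := by
    apply hinj
    rw [map_sum, map_zero]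
    have h1 : ∀ i, algebraMap A E (Gp i ^ 2) = algebraMap A E D ^ 2 * F i ^ 2 := by
      intro i
      rw [map_pow, hG]; ring
    simp only [h1]
    rw [← Finset.mul_sum, hFq, mul_zero]
  have hG0 : ∃ i, Gp i ≠ 0 := by
    by_contra hcon
    push Not at hcon
    apply hF0
    funext i
    have h1 := hG i
    have h2 : D' * a i = 0 := hcon i
    rw [h2, map_zero] at h1
    exact (mul_eq_zero.1 h1.symm).resolve_left hDE
  obtain ⟨i0, hi0⟩ := hG0
  have hdeg : ∀ i, (Gp i).totalDegree = (Gp i0).totalDegree := by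
    intro i
    have h1 : Gp i = rename (Equiv.swap i0 i) (Gp i0) := by
      rw [hGσ]; simp
    rw [h1]
    exact totalDegree_renameEquiv (Equiv.swap i0 i) (Gp i0)
  refine ⟨(Gp i0).totalDegree, fun i => homogeneousComponent (Gp i0).totalDegree (Gp i),
    ⟨i0, hc_top_ne_zero _ hi0⟩, fun i => homogeneousComponent_isHomogeneous _ _, ?_, ?_, ?_⟩
  · intro σ i
    show rename σ (homogeneousComponent _ (Gp i)) = homogeneousComponent _ (Gp (σ i))
    rw [rename_homogeneousComponent, hGσ]
  · rw [← map_sum, hGs, map_zero]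
  · have h1 : ∀ i, homogeneousComponent (Gp i0).totalDegree (Gp i) ^ 2 =
        homogeneousComponent ((Gp i0).totalDegree + (Gp i0).totalDegree) (Gp i ^ 2) := by
      intro i
      rw [hc_sq_top _ _ (hdeg i).le]
    simp only [h1]
    rw [← map_sum, hGq, map_zero]

end family2

section final
open MvPolynomial

variable {k : Type*} [Field k]

theorem rename_mem_symIdeal {d : ℕ} (f p : MvPolynomial (Fin d) k) (σ : Equiv.Perm (Fin d))
    (hp : p ∈ symIdeal f) : rename σ p ∈ symIdeal f := by
  have h1 : symIdeal f ≤ (symIdeal f).comap (rename σ : MvPolynomial (Fin d) k →ₐ[k] _) := by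
    conv_lhs => rw [symIdeal]
    rw [Ideal.span_le]
    rintro _ ⟨τ, rfl⟩
    simp only [SetLike.mem_coe, Ideal.mem_comap]
    rw [rename_rename]
    exact Ideal.subset_span ⟨σ * τ, rfl⟩
  exact h1 hp

theorem self_mem_symIdeal {d : ℕ} (f : MvPolynomial (Fin d) k) : f ∈ symIdeal f := by
  apply Ideal.subset_span
  exact ⟨1, by simp⟩

theorem exists_perm {d m : ℕ} (x y : Fin m → Fin d) (hx : Function.Injective x)
    (hy : Function.Injective y) : ∃ σ : Equiv.Perm (Fin d), ∀ i, σ (x i) = y i := by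
  exact Equiv.Perm.exists_extending_pair x y hx hy

/-- lowest degree components in an ideal -/
theorem low_component {σ : Type*} (D : ℕ) (S : Set (MvPolynomial σ k)) (V : Submodule k (MvPolynomial σ k))
    (h1 : ∀ s ∈ S, ∀ m < D, homogeneousComponent m s = 0)
    (h2 : ∀ s ∈ S, homogeneousComponent D s ∈ V) :
    ∀ x ∈ Ideal.span S, (∀ m < D, homogeneousComponent m x = 0) ∧ homogeneousComponent D x ∈ V := by
  intro x hx
  induction hx using Submodule.span_induction with
  | mem x hx => exact ⟨h1 x hx, h2 x hx⟩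
  | zero => exact ⟨fun m _ => map_zero _, by rw [map_zero]; exact V.zero_mem⟩
  | add x y _ _ hx hy =>
    refine ⟨fun m hm => ?_, ?_⟩
    · rw [map_add, hx.1 m hm, hy.1 m hm, add_zero]
    · rw [map_add]; exact V.add_mem hx.2 hy.2
  | smul r x _ hx =>
    refine ⟨fun m hm => ?_, ?_⟩
    · rw [smul_eq_mul, hc_mul]
      apply Finset.sum_eq_zero
      rintro ⟨i, j⟩ hij
      rw [Finset.HasAntidiagonal.mem_antidiagonal] at hij
      simp only at hij ⊢
      rw [hx.1 j (by omega), mul_zero]
    · rw [smul_eq_mul, hc_mul, Finset.sum_eq_single (0, D)]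
      · simp only
        rw [homogeneousComponent_zero, C_mul']
        exact V.smul_mem _ hx.2
      · rintro ⟨i, j⟩ hij hne
        rw [Finset.HasAntidiagonal.mem_antidiagonal] at hij
        simp only at hij ⊢
        have : j < D := by
          by_contra hc
          apply hne
          have h3 : j = D := by omega
          have h4 : i = 0 := by omega
          rw [h3, h4]
        rw [hx.1 j this, mul_zero]
      · intro h
        exact absurd (by rw [Finset.HasAntidiagonal.mem_antidiagonal]; simp) h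

/-- data used in the counterexample -/
structure Data (k : Type*) [Field k] where
  e : ℕ
  N : ℕ
  H : Fin 7 → MvPolynomial (Fin 7) k
  h1 : MvPolynomial (Fin 7) k
  h2 : MvPolynomial (Fin 7) k
  a : MvPolynomial (Fin 7) k
  hH0 : ∃ i, H i ≠ 0
  hHe : ∀ i, (H i).IsHomogeneous e
  hHσ : ∀ (σ : Equiv.Perm (Fin 7)) i, rename σ (H i) = H (σ i)
  hHs : ∑ i, H i = 0
  hHq : ∑ i, H i ^ 2 = 0
  h1σ : ∀ σ : Equiv.Perm (Fin 7), rename σ h1 = h1
  h2σ : ∀ σ : Equiv.Perm (Fin 7), rename σ h2 = h2
  h1e : h1.IsHomogeneous N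
  h2e : h2.IsHomogeneous N
  hlin : ∀ x y : k, C x * h1 + C y * h2 = 0 → x = 0 ∧ y = 0
  ha0 : a ≠ 0
  hae : a.IsHomogeneous (e + N)
  haσ : ∀ σ : Equiv.Perm (Fin 7), rename σ a = C ((Equiv.Perm.sign σ : ℤ) : k) * a

variable [CharZero k] (d : Data k)

namespace Data

/-- generators of the ideal -/
def gens : Set (MvPolynomial (Fin 7) k) :=
  {d.a} ∪ (Set.range fun i => d.h1 * d.H i) ∪ (Set.range fun i => d.h2 * d.H i)

/-- the ideal -/
noncomputable def I : Ideal (MvPolynomial (Fin 7) k) := Ideal.span d.gens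

theorem a_mem : d.a ∈ d.I := Ideal.subset_span (Or.inl (Or.inl rfl))
theorem h1_mem (i) : d.h1 * d.H i ∈ d.I := Ideal.subset_span (Or.inl (Or.inr ⟨i, rfl⟩))
theorem h2_mem (i) : d.h2 * d.H i ∈ d.I := Ideal.subset_span (Or.inr ⟨i, rfl⟩)

theorem swap_a {i j : Fin 7} (hij : i ≠ j) : rename (Equiv.swap i j) d.a = - d.a := by
  rw [d.haσ, Equiv.Perm.sign_swap hij]; simp

theorem sum_H_ne (i : Fin 7) : ∑ j ∈ Finset.univ.erase i, d.H j = - d.H i := by
  have := Finset.sum_erase_add Finset.univ d.H (Finset.mem_univ i)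
  rw [d.hHs] at this
  linear_combination this

theorem sum_Hsq_ne (i : Fin 7) : ∑ j ∈ Finset.univ.erase i, d.H j ^ 2 = - d.H i ^ 2 := by
  have := Finset.sum_erase_add Finset.univ (fun j => d.H j ^ 2) (Finset.mem_univ i)
  rw [d.hHq] at this
  linear_combination this

/-- multiplication by nonzero integers is invertible in ideals -/
theorem mem_of_natCast_mul {J : Ideal (MvPolynomial (Fin 7) k)} {p : MvPolynomial (Fin 7) k} (n : ℕ)
    (hn : n ≠ 0) (h : (n : MvPolynomial (Fin 7) k) * p ∈ J) : p ∈ J := by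
  have hk : (n : k) ≠ 0 := Nat.cast_ne_zero.2 hn
  have : p = C ((n : k)⁻¹) * ((n : MvPolynomial (Fin 7) k) * p) := by
    rw [← mul_assoc]
    have h1 : (n : MvPolynomial (Fin 7) k) = C (n : k) := by simp
    rw [h1, ← map_mul, inv_mul_cancel₀ hk, map_one, one_mul]
  rw [this]
  exact J.mul_mem_left _ h

theorem std_closure {J : Ideal (MvPolynomial (Fin 7) k)} (w : MvPolynomial (Fin 7) k)
    (h : ∀ i j, i ≠ j → w * (d.h1 * d.H i + d.h2 * d.H j) ∈ J) (i : Fin 7) :
    w * (d.h1 * d.H i) ∈ J ∧ w * (d.h2 * d.H i) ∈ J := by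
  have e1 : w * (6 * d.h1 * d.H i - d.h2 * d.H i) ∈ J := by
    have h1 : ∑ j ∈ Finset.univ.erase i, w * (d.h1 * d.H i + d.h2 * d.H j) ∈ J :=
      J.sum_mem fun j hj => h i j (Finset.ne_of_mem_erase hj).symm
    rw [← Finset.mul_sum, Finset.sum_add_distrib, ← Finset.mul_sum (Finset.univ.erase i) d.H, sum_H_ne,
      Finset.sum_const, Finset.card_erase_of_mem (Finset.mem_univ i), Finset.card_univ,
      Fintype.card_fin] at h1
    convert h1 using 2
    simp only [nsmul_eq_mul]; push_cast; ring
  have e2 : w * (6 * d.h2 * d.H i - d.h1 * d.H i) ∈ J := by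
    have h1 : ∑ j ∈ Finset.univ.erase i, w * (d.h1 * d.H j + d.h2 * d.H i) ∈ J :=
      J.sum_mem fun j hj => h j i (Finset.ne_of_mem_erase hj)
    rw [← Finset.mul_sum, Finset.sum_add_distrib, ← Finset.mul_sum (Finset.univ.erase i) d.H, sum_H_ne,
      Finset.sum_const, Finset.card_erase_of_mem (Finset.mem_univ i), Finset.card_univ,
      Fintype.card_fin] at h1
    convert h1 using 2
    simp only [nsmul_eq_mul]; push_cast; ring
  constructor
  · apply mem_of_natCast_mul 35 (by norm_num)
    have : ((35 : ℕ) : MvPolynomial (Fin 7) k) * (w * (d.h1 * d.H i)) =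
        6 * (w * (6 * d.h1 * d.H i - d.h2 * d.H i)) + w * (6 * d.h2 * d.H i - d.h1 * d.H i) := by
      push_cast; ring
    rw [this]
    exact J.add_mem (J.mul_mem_left _ e1) e2
  · apply mem_of_natCast_mul 35 (by norm_num)
    have : ((35 : ℕ) : MvPolynomial (Fin 7) k) * (w * (d.h2 * d.H i)) =
        6 * (w * (6 * d.h2 * d.H i - d.h1 * d.H i)) + w * (6 * d.h1 * d.H i - d.h2 * d.H i) := by
      push_cast; ring
    rw [this]
    exact J.add_mem (J.mul_mem_left _ e2) e1

/-- the generator of `I` -/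
noncomputable def F : MvPolynomial (Fin 7) k := d.a + (d.h1 * d.H 0 + d.h2 * d.H 1)

theorem F_hom : d.F.IsHomogeneous (d.e + d.N) := by
  refine d.hae.add ?_
  rw [add_comm d.e d.N]
  exact (d.h1e.mul (d.hHe 0)).add (d.h2e.mul (d.hHe 1))

theorem I_eq : d.I = symIdeal d.F := by
  apply le_antisymm
  · have hF := self_mem_symIdeal d.F
    have hτ := rename_mem_symIdeal d.F d.F (Equiv.swap 2 3) hF
    have e1 : rename (Equiv.swap 2 3) d.F = - d.a + (d.h1 * d.H 0 + d.h2 * d.H 1) := by
      simp only [F, map_add, map_mul, d.h1σ, d.h2σ, d.hHσ]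
      rw [d.swap_a (by decide)]
      have : (Equiv.swap (2 : Fin 7) 3) 0 = 0 := by decide
      have : (Equiv.swap (2 : Fin 7) 3) 1 = 1 := by decide
      simp [*]
    rw [e1] at hτ
    have ha : d.a ∈ symIdeal d.F := by
      apply mem_of_natCast_mul 2 (by norm_num)
      have := (symIdeal d.F).sub_mem hF hτ
      convert this using 1
      simp only [F]; push_cast; ring
    have hb : d.h1 * d.H 0 + d.h2 * d.H 1 ∈ symIdeal d.F := by
      have := (symIdeal d.F).sub_mem hF ha
      convert this using 1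
      simp only [F]; ring
    have hc : ∀ i j, i ≠ j → (1 : MvPolynomial (Fin 7) k) * (d.h1 * d.H i + d.h2 * d.H j) ∈ symIdeal d.F := by
      intro i j hij
      obtain ⟨σ, hσ⟩ := exists_perm ![0, 1] ![i, j] (by decide)
        (by intro x y hxy; fin_cases x <;> fin_cases y <;> simp_all [eq_comm])
      have h0 := hσ 0
      have h1 := hσ 1
      simp at h0 h1
      have := rename_mem_symIdeal d.F _ σ hb
      simp only [map_add, map_mul, d.h1σ, d.h2σ, d.hHσ, h0, h1] at this
      rwa [one_mul]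
    have hd := d.std_closure 1 hc
    rw [I, Ideal.span_le]
    rintro _ ((rfl | ⟨i, rfl⟩) | ⟨i, rfl⟩)
    · exact ha
    · simpa using (hd i).1
    · simpa using (hd i).2
  · rw [symIdeal, Ideal.span_le]
    rintro _ ⟨σ, rfl⟩
    simp only [SetLike.mem_coe, F, map_add, map_mul, d.h1σ, d.h2σ, d.hHσ, d.haσ]
    exact d.I.add_mem (d.I.mul_mem_left _ d.a_mem) (d.I.add_mem (d.h1_mem _) (d.h2_mem _))


/-- the generator of `I ^ 2` -/
noncomputable def F2 : MvPolynomial (Fin 7) k :=
  d.a ^ 2 + d.a * (d.h1 * d.H 0 + d.h2 * d.H 1) +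
    (d.h1 ^ 2 * (d.H 0 * d.H 1) + d.h1 * d.h2 * (d.H 2 * d.H 3) + d.h2 ^ 2 * (d.H 4 * d.H 5))

theorem F2_hom : d.F2.IsHomogeneous ((d.e + d.N) + (d.e + d.N)) := by
  have ha2 : (d.a ^ 2).IsHomogeneous ((d.e + d.N) + (d.e + d.N)) := by
    rw [sq]; exact d.hae.mul d.hae
  have hl : (d.h1 * d.H 0 + d.h2 * d.H 1).IsHomogeneous (d.e + d.N) := by
    rw [add_comm d.e d.N]
    exact (d.h1e.mul (d.hHe 0)).add (d.h2e.mul (d.hHe 1))
  have e1 : (d.N + d.N) + (d.e + d.e) = (d.e + d.N) + (d.e + d.N) := by ring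
  refine (ha2.add (d.hae.mul hl)).add ?_
  rw [← e1, sq, sq]
  exact (((d.h1e.mul d.h1e).mul ((d.hHe 0).mul (d.hHe 1))).add
    ((d.h1e.mul d.h2e).mul ((d.hHe 2).mul (d.hHe 3)))).add
    ((d.h2e.mul d.h2e).mul ((d.hHe 4).mul (d.hHe 5)))

/-- double sum identity -/
theorem double_sum (i k' : Fin 7) (q : MvPolynomial (Fin 7) k) {J : Ideal (MvPolynomial (Fin 7) k)}
    (hJ : ∀ i j k' l : Fin 7, i ≠ j → i ≠ k' → i ≠ l → j ≠ k' → j ≠ l → k' ≠ l →
      q * ((d.H i - d.H j) * (d.H k' - d.H l)) ∈ J) (hik : i ≠ k') :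
    q * (5 * (d.H i * d.H k') + d.H i ^ 2 + d.H k' ^ 2) ∈ J := by
  classical
  let S : Finset (Fin 7) := (Finset.univ.erase i).erase k'
  have hS : ∀ j, j ∈ S ↔ j ≠ k' ∧ j ≠ i := by intro j; simp [S]
  have hk' : k' ∈ Finset.univ.erase i := Finset.mem_erase.2 ⟨hik.symm, Finset.mem_univ _⟩
  have hcard : S.card = 5 := by
    rw [Finset.card_erase_of_mem hk', Finset.card_erase_of_mem (Finset.mem_univ i)]
    simp
  have hsum : ∑ j ∈ S, d.H j = - d.H i - d.H k' := by
    have h1 := Finset.sum_erase_add (Finset.univ.erase i) d.H hk'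
    rw [sum_H_ne] at h1
    linear_combination h1
  have hsq : ∑ j ∈ S, d.H j ^ 2 = - d.H i ^ 2 - d.H k' ^ 2 := by
    have h1 := Finset.sum_erase_add (Finset.univ.erase i) (fun j => d.H j ^ 2) hk'
    rw [sum_Hsq_ne] at h1
    linear_combination h1
  have hmem : ∑ j ∈ S, ∑ l ∈ S.erase j, q * ((d.H i - d.H j) * (d.H k' - d.H l)) ∈ J := by
    apply J.sum_mem
    intro j hj
    apply J.sum_mem
    intro l hl
    rw [Finset.mem_erase, hS] at hl
    rw [hS] at hj
    exact hJ i j k' l hj.2.symm hik hl.2.2.symm hj.1 hl.1.symm hl.2.1.symm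
  have hinner : ∀ j ∈ S, ∑ l ∈ S.erase j, q * ((d.H i - d.H j) * (d.H k' - d.H l)) =
      q * ((d.H i - d.H j) * (4 * d.H k' + d.H i + d.H k' + d.H j)) := by
    intro j hj
    rw [← Finset.mul_sum, ← Finset.mul_sum, Finset.sum_sub_distrib, Finset.sum_const,
      Finset.card_erase_of_mem hj, hcard]
    have h1 := Finset.sum_erase_add S d.H hj
    rw [hsum] at h1
    have h2 : ∑ l ∈ S.erase j, d.H l = - d.H i - d.H k' - d.H j := by linear_combination h1
    rw [h2]
    simp only [nsmul_eq_mul]; push_cast; ring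
  rw [Finset.sum_congr rfl hinner] at hmem
  have houter : ∑ j ∈ S, q * ((d.H i - d.H j) * (4 * d.H k' + d.H i + d.H k' + d.H j)) =
      ((6 : ℕ) : MvPolynomial (Fin 7) k) * (q * (5 * (d.H i * d.H k') + d.H i ^ 2 + d.H k' ^ 2)) := by
    have h1 : ∀ j, q * ((d.H i - d.H j) * (4 * d.H k' + d.H i + d.H k' + d.H j)) =
        q * (d.H i * (5 * d.H k' + d.H i)) - (q * (5 * d.H k')) * d.H j - q * d.H j ^ 2 := by
      intro j; ring
    simp only [h1]
    rw [Finset.sum_sub_distrib, Finset.sum_sub_distrib, Finset.sum_const, hcard, ← Finset.mul_sum,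
      ← Finset.mul_sum, hsum, hsq]
    simp only [nsmul_eq_mul]; push_cast; ring
  rw [houter] at hmem
  exact mem_of_natCast_mul 6 (by norm_num) hmem

theorem sq_sum {q : MvPolynomial (Fin 7) k} {J : Ideal (MvPolynomial (Fin 7) k)}
    (hJ : ∀ i j : Fin 7, i ≠ j → q * (d.H i ^ 2 - d.H j ^ 2) ∈ J) (i : Fin 7) :
    q * d.H i ^ 2 ∈ J := by
  have h1 : ∑ j ∈ Finset.univ.erase i, q * (d.H i ^ 2 - d.H j ^ 2) ∈ J :=
    J.sum_mem fun j hj => hJ i j (Finset.ne_of_mem_erase hj).symm
  rw [← Finset.mul_sum, Finset.sum_sub_distrib, sum_Hsq_ne, Finset.sum_const,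
    Finset.card_erase_of_mem (Finset.mem_univ i), Finset.card_univ, Fintype.card_fin] at h1
  apply mem_of_natCast_mul 7 (by norm_num)
  convert h1 using 1
  simp only [nsmul_eq_mul]; push_cast; ring

theorem I_sq_eq : d.I ^ 2 = symIdeal d.F2 := by
  apply le_antisymm
  · set J := symIdeal d.F2 with hJdef
    have hσJ : ∀ (σ : Equiv.Perm (Fin 7)) p, p ∈ J → rename σ p ∈ J :=
      fun σ p hp => rename_mem_symIdeal d.F2 p σ hp
    have hF : d.F2 ∈ J := self_mem_symIdeal d.F2
    have sw : ∀ (i j x y : Fin 7), Equiv.swap i j x = y → d.H (Equiv.swap i j x) = d.H y := by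
      intro i j x y h; rw [h]
    -- flip the sign of `a`
    have e1 : rename (Equiv.swap 2 3) d.F2 = d.a ^ 2 - d.a * (d.h1 * d.H 0 + d.h2 * d.H 1) +
        (d.h1 ^ 2 * (d.H 0 * d.H 1) + d.h1 * d.h2 * (d.H 2 * d.H 3) + d.h2 ^ 2 * (d.H 4 * d.H 5)) := by
      simp only [F2, map_add, map_mul, map_pow, d.h1σ, d.h2σ, d.hHσ]
      rw [d.swap_a (by decide), sw 2 3 0 0 (by decide), sw 2 3 1 1 (by decide),
        sw 2 3 2 3 (by decide), sw 2 3 3 2 (by decide), sw 2 3 4 4 (by decide), sw 2 3 5 5 (by decide)]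
      ring
    have hτ := hσJ (Equiv.swap 2 3) _ hF
    rw [e1] at hτ
    have hb : d.a * (d.h1 * d.H 0 + d.h2 * d.H 1) ∈ J := by
      apply mem_of_natCast_mul 2 (by norm_num)
      have := J.sub_mem hF hτ
      convert this using 1
      simp only [F2]; push_cast; ring
    have hG1 : d.a ^ 2 +
        (d.h1 ^ 2 * (d.H 0 * d.H 1) + d.h1 * d.h2 * (d.H 2 * d.H 3) + d.h2 ^ 2 * (d.H 4 * d.H 5)) ∈ J := by
      have := J.sub_mem hF hb
      convert this using 1
      simp only [F2]; ring
    have hsign : ∀ σ : Equiv.Perm (Fin 7), ((Equiv.Perm.sign σ : ℤ) : k) * ((Equiv.Perm.sign σ : ℤ) : k) = 1 := by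
      intro σ
      rcases Int.units_eq_one_or (Equiv.Perm.sign σ) with h | h <;> simp [h]
    have hc : ∀ i j, i ≠ j → d.a * (d.h1 * d.H i + d.h2 * d.H j) ∈ J := by
      intro i j hij
      obtain ⟨σ, hσ⟩ := exists_perm ![0, 1] ![i, j] (by decide)
        (by intro x y hxy; fin_cases x <;> fin_cases y <;> simp_all [eq_comm])
      have h0 := hσ 0
      have h1 := hσ 1
      simp at h0 h1
      have := J.mul_mem_left (C ((Equiv.Perm.sign σ : ℤ) : k)) (hσJ σ _ hb)
      simp only [map_add, map_mul, d.h1σ, d.h2σ, d.hHσ, h0, h1, d.haσ] at this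
      rw [← mul_assoc, ← mul_assoc, ← map_mul, hsign, map_one, one_mul] at this
      exact this
    have hd := d.std_closure d.a hc
    have hG3 : ∀ (σ : Equiv.Perm (Fin 7)) (t : Fin 6 → Fin 7), Function.Injective t →
        d.a ^ 2 + (d.h1 ^ 2 * (d.H (σ (t 0)) * d.H (σ (t 1))) + d.h1 * d.h2 * (d.H (σ (t 2)) * d.H (σ (t 3)))
          + d.h2 ^ 2 * (d.H (σ (t 4)) * d.H (σ (t 5)))) ∈ J := by
      intro σ t ht
      obtain ⟨ρ, hρ⟩ := exists_perm ![0, 1, 2, 3, 4, 5] (σ ∘ t) (by decide) (σ.injective.comp ht)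
      have r0 : ρ 0 = σ (t 0) := hρ 0
      have r1 : ρ 1 = σ (t 1) := hρ 1
      have r2 : ρ 2 = σ (t 2) := hρ 2
      have r3 : ρ 3 = σ (t 3) := hρ 3
      have r4 : ρ 4 = σ (t 4) := hρ 4
      have r5 : ρ 5 = σ (t 5) := hρ 5
      have := hσJ ρ _ hG1
      have ha : rename ρ (d.a ^ 2) = d.a ^ 2 := by
        rw [map_pow, d.haσ, mul_pow, ← map_pow, sq, hsign, map_one, one_mul]
      rw [map_add, ha] at this
      simp only [map_add, map_mul, map_pow, d.h1σ, d.h2σ, d.hHσ] at this
      rw [r0, r1, r2, r3, r4, r5] at this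
      exact this
    have hpick : ∀ i j k' l : Fin 7, i ≠ j → i ≠ k' → i ≠ l → j ≠ k' → j ≠ l → k' ≠ l →
        ∃ σ : Equiv.Perm (Fin 7), σ 0 = i ∧ σ 1 = j ∧ σ 2 = k' ∧ σ 3 = l := by
      intro i j k' l hij hik hil hjk hjl hkl
      obtain ⟨σ, hσ⟩ := exists_perm ![0, 1, 2, 3] ![i, j, k', l] (by decide)
        (by intro x y hxy; fin_cases x <;> fin_cases y <;> simp_all [eq_comm])
      exact ⟨σ, hσ 0, hσ 1, hσ 2, hσ 3⟩
    have hT1 : ∀ i j k' l : Fin 7, i ≠ j → i ≠ k' → i ≠ l → j ≠ k' → j ≠ l → k' ≠ l →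
        (d.h1 ^ 2 + d.h1 * d.h2) * ((d.H i - d.H j) * (d.H k' - d.H l)) ∈ J := by
      intro i j k' l hij hik hil hjk hjl hkl
      obtain ⟨σ, rfl, rfl, rfl, rfl⟩ := hpick i j k' l hij hik hil hjk hjl hkl
      have g1 := hG3 σ ![0, 2, 1, 3, 4, 5] (by decide)
      have g2 := hG3 σ ![1, 2, 0, 3, 4, 5] (by decide)
      have g3 := hG3 σ ![0, 3, 1, 2, 4, 5] (by decide)
      have g4 := hG3 σ ![1, 3, 0, 2, 4, 5] (by decide)
      simp only [Matrix.cons_val] at g1 g2 g3 g4
      have := J.add_mem (J.sub_mem (J.sub_mem g1 g2) g3) g4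
      convert this using 1
      ring
    have hT2 : ∀ i j k' l : Fin 7, i ≠ j → i ≠ k' → i ≠ l → j ≠ k' → j ≠ l → k' ≠ l →
        (d.h1 ^ 2 + d.h2 ^ 2) * ((d.H i - d.H j) * (d.H k' - d.H l)) ∈ J := by
      intro i j k' l hij hik hil hjk hjl hkl
      obtain ⟨σ, rfl, rfl, rfl, rfl⟩ := hpick i j k' l hij hik hil hjk hjl hkl
      have g1 := hG3 σ ![0, 2, 4, 5, 1, 3] (by decide)
      have g2 := hG3 σ ![1, 2, 4, 5, 0, 3] (by decide)
      have g3 := hG3 σ ![0, 3, 4, 5, 1, 2] (by decide)
      have g4 := hG3 σ ![1, 3, 4, 5, 0, 2] (by decide)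
      simp only [Matrix.cons_val] at g1 g2 g3 g4
      have := J.add_mem (J.sub_mem (J.sub_mem g1 g2) g3) g4
      convert this using 1
      ring
    have hT3 : ∀ i j k' l : Fin 7, i ≠ j → i ≠ k' → i ≠ l → j ≠ k' → j ≠ l → k' ≠ l →
        (d.h1 * d.h2 + d.h2 ^ 2) * ((d.H i - d.H j) * (d.H k' - d.H l)) ∈ J := by
      intro i j k' l hij hik hil hjk hjl hkl
      obtain ⟨σ, rfl, rfl, rfl, rfl⟩ := hpick i j k' l hij hik hil hjk hjl hkl
      have g1 := hG3 σ ![4, 5, 0, 2, 1, 3] (by decide)
      have g2 := hG3 σ ![4, 5, 1, 2, 0, 3] (by decide)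
      have g3 := hG3 σ ![4, 5, 0, 3, 1, 2] (by decide)
      have g4 := hG3 σ ![4, 5, 1, 3, 0, 2] (by decide)
      simp only [Matrix.cons_val] at g1 g2 g3 g4
      have := J.add_mem (J.sub_mem (J.sub_mem g1 g2) g3) g4
      convert this using 1
      ring
    have hU1 : ∀ i j k' l : Fin 7, i ≠ j → i ≠ k' → i ≠ l → j ≠ k' → j ≠ l → k' ≠ l →
        d.h1 ^ 2 * ((d.H i - d.H j) * (d.H k' - d.H l)) ∈ J := by
      intro i j k' l hij hik hil hjk hjl hkl
      apply mem_of_natCast_mul 2 (by norm_num)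
      have := J.sub_mem (J.add_mem (hT1 i j k' l hij hik hil hjk hjl hkl) (hT2 i j k' l hij hik hil hjk hjl hkl))
        (hT3 i j k' l hij hik hil hjk hjl hkl)
      convert this using 1
      push_cast; ring
    have hU2 : ∀ i j k' l : Fin 7, i ≠ j → i ≠ k' → i ≠ l → j ≠ k' → j ≠ l → k' ≠ l →
        (d.h1 * d.h2) * ((d.H i - d.H j) * (d.H k' - d.H l)) ∈ J := by
      intro i j k' l hij hik hil hjk hjl hkl
      have := J.sub_mem (hT1 i j k' l hij hik hil hjk hjl hkl) (hU1 i j k' l hij hik hil hjk hjl hkl)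
      convert this using 1
      ring
    have hU3 : ∀ i j k' l : Fin 7, i ≠ j → i ≠ k' → i ≠ l → j ≠ k' → j ≠ l → k' ≠ l →
        d.h2 ^ 2 * ((d.H i - d.H j) * (d.H k' - d.H l)) ∈ J := by
      intro i j k' l hij hik hil hjk hjl hkl
      have := J.sub_mem (hT2 i j k' l hij hik hil hjk hjl hkl) (hU1 i j k' l hij hik hil hjk hjl hkl)
      convert this using 1
      ring
    have hV1 := fun i j hij => d.double_sum i j _ hU1 hij
    have hV2 := fun i j hij => d.double_sum i j _ hU2 hij
    have hV3 := fun i j hij => d.double_sum i j _ hU3 hij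
    -- replace products by squares
    have hG4 : ∀ (σ : Equiv.Perm (Fin 7)) (t : Fin 6 → Fin 7), Function.Injective t →
        5 * d.a ^ 2 - (d.h1 ^ 2 * (d.H (σ (t 0)) ^ 2 + d.H (σ (t 1)) ^ 2) +
          d.h1 * d.h2 * (d.H (σ (t 2)) ^ 2 + d.H (σ (t 3)) ^ 2)
          + d.h2 ^ 2 * (d.H (σ (t 4)) ^ 2 + d.H (σ (t 5)) ^ 2)) ∈ J := by
      intro σ t ht
      have hne : ∀ x y : Fin 6, x ≠ y → σ (t x) ≠ σ (t y) := fun x y hxy h => hxy (ht (σ.injective h))
      have g := J.mul_mem_left 5 (hG3 σ t ht)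
      have v1 := hV1 _ _ (hne 0 1 (by decide))
      have v2 := hV2 _ _ (hne 2 3 (by decide))
      have v3 := hV3 _ _ (hne 4 5 (by decide))
      have := J.sub_mem (J.sub_mem (J.sub_mem g v1) v2) v3
      convert this using 1
      ring
    have hpick2 : ∀ i j : Fin 7, i ≠ j → ∃ σ : Equiv.Perm (Fin 7), σ 0 = i ∧ σ 6 = j := by
      intro i j hij
      obtain ⟨σ, hσ⟩ := exists_perm ![0, 6] ![i, j] (by decide)
        (by intro x y hxy; fin_cases x <;> fin_cases y <;> simp_all [eq_comm])
      exact ⟨σ, hσ 0, hσ 1⟩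
    have hW1 : ∀ i j : Fin 7, i ≠ j → d.h1 ^ 2 * (d.H i ^ 2 - d.H j ^ 2) ∈ J := by
      intro i j hij
      obtain ⟨σ, rfl, rfl⟩ := hpick2 i j hij
      have g1 := hG4 σ ![6, 1, 2, 3, 4, 5] (by decide)
      have g2 := hG4 σ ![0, 1, 2, 3, 4, 5] (by decide)
      simp only [Matrix.cons_val] at g1 g2
      have := J.sub_mem g1 g2
      convert this using 1
      ring
    have hW2 : ∀ i j : Fin 7, i ≠ j → (d.h1 * d.h2) * (d.H i ^ 2 - d.H j ^ 2) ∈ J := by
      intro i j hij
      obtain ⟨σ, rfl, rfl⟩ := hpick2 i j hij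
      have g1 := hG4 σ ![2, 1, 6, 3, 4, 5] (by decide)
      have g2 := hG4 σ ![2, 1, 0, 3, 4, 5] (by decide)
      simp only [Matrix.cons_val] at g1 g2
      have := J.sub_mem g1 g2
      convert this using 1
      ring
    have hW3 : ∀ i j : Fin 7, i ≠ j → d.h2 ^ 2 * (d.H i ^ 2 - d.H j ^ 2) ∈ J := by
      intro i j hij
      obtain ⟨σ, rfl, rfl⟩ := hpick2 i j hij
      have g1 := hG4 σ ![2, 1, 4, 3, 6, 5] (by decide)
      have g2 := hG4 σ ![2, 1, 4, 3, 0, 5] (by decide)
      simp only [Matrix.cons_val] at g1 g2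
      have := J.sub_mem g1 g2
      convert this using 1
      ring
    have hX1 := d.sq_sum hW1
    have hX2 := d.sq_sum hW2
    have hX3 := d.sq_sum hW3
    have hprod : ∀ (q : MvPolynomial (Fin 7) k),
        (∀ i j, i ≠ j → q * (5 * (d.H i * d.H j) + d.H i ^ 2 + d.H j ^ 2) ∈ J) →
        (∀ i, q * d.H i ^ 2 ∈ J) → ∀ i j, q * (d.H i * d.H j) ∈ J := by
      intro q hq1 hq2 i j
      by_cases hij : i = j
      · subst hij; rw [← sq]; exact hq2 i
      · apply mem_of_natCast_mul 5 (by norm_num)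
        have := J.sub_mem (J.sub_mem (hq1 i j hij) (hq2 i)) (hq2 j)
        convert this using 1
        push_cast; ring
    have hY1 := hprod _ hV1 hX1
    have hY2 := hprod _ hV2 hX2
    have hY3 := hprod _ hV3 hX3
    have haa : d.a ^ 2 ∈ J := by
      have := J.sub_mem hG1 (J.add_mem (J.add_mem (hY1 0 1) (hY2 2 3)) (hY3 4 5))
      convert this using 1
      ring
    rw [sq, I, Ideal.span_mul_span', Ideal.span_le]
    rintro _ ⟨x, hx, y, hy, rfl⟩
    simp only [SetLike.mem_coe]
    rcases hx with (rfl | ⟨i, rfl⟩) | ⟨i, rfl⟩ <;> rcases hy with (rfl | ⟨j, rfl⟩) | ⟨j, rfl⟩ <;>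
      beta_reduce
    · convert haa using 1; ring
    · exact (hd j).1
    · exact (hd j).2
    · convert (hd i).1 using 1; ring
    · convert hY1 i j using 1; ring
    · convert hY2 i j using 1; ring
    · convert (hd i).2 using 1; ring
    · convert hY2 i j using 1; ring
    · convert hY3 i j using 1; ring
  · rw [symIdeal, Ideal.span_le]
    rintro _ ⟨σ, rfl⟩
    simp only [SetLike.mem_coe, F2, map_add, map_mul, map_pow, d.h1σ, d.h2σ, d.hHσ, d.haσ]
    have m2 : ∀ x y, x ∈ d.I → y ∈ d.I → x * y ∈ d.I ^ 2 := by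
      intro x y hx hy; rw [sq]; exact Ideal.mul_mem_mul hx hy
    have haI := d.I.mul_mem_left (C ((Equiv.Perm.sign σ : ℤ) : k)) d.a_mem
    have t1 := m2 _ _ haI haI
    have t2 := m2 _ _ haI (d.h1_mem (σ 0))
    have t3 := m2 _ _ haI (d.h2_mem (σ 1))
    have t4 := m2 _ _ (d.h1_mem (σ 0)) (d.h1_mem (σ 1))
    have t5 := m2 _ _ (d.h1_mem (σ 2)) (d.h2_mem (σ 3))
    have t6 := m2 _ _ (d.h2_mem (σ 4)) (d.h2_mem (σ 5))
    have := (d.I ^ 2).add_mem ((d.I ^ 2).add_mem t1 ((d.I ^ 2).add_mem t2 t3))
      ((d.I ^ 2).add_mem ((d.I ^ 2).add_mem t4 t5) t6)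
    convert this using 1
    ring

theorem H_sub_ne {i j : Fin 7} (hij : i ≠ j) : d.H i - d.H j ≠ 0 := by
  intro h
  have hall : ∀ x y : Fin 7, x ≠ y → d.H x - d.H y = 0 := by
    intro x y hxy
    obtain ⟨σ, hσ⟩ := exists_perm ![i, j] ![x, y]
      (by intro x y hxy; fin_cases x <;> fin_cases y <;> simp_all [eq_comm])
      (by intro x y hxy; fin_cases x <;> fin_cases y <;> simp_all [eq_comm])
    have h0 : σ i = x := hσ 0
    have h1 : σ j = y := hσ 1
    have h2 := congrArg (rename σ) h
    rw [map_sub, d.hHσ, d.hHσ, h0, h1, map_zero] at h2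
    exact h2
  have heq : ∀ x, d.H x = d.H 0 := by
    intro x
    by_cases hx : x = 0
    · rw [hx]
    · exact sub_eq_zero.1 (hall x 0 hx)
  have hs := d.hHs
  rw [Finset.sum_congr rfl (fun x _ => heq x), Finset.sum_const, Finset.card_univ, Fintype.card_fin,
    nsmul_eq_mul] at hs
  have h7 : ((7 : ℕ) : MvPolynomial (Fin 7) k) ≠ 0 := Nat.cast_ne_zero.2 (by norm_num)
  have h0 : d.H 0 = 0 := (mul_eq_zero.1 hs).resolve_left h7
  obtain ⟨x, hx⟩ := d.hH0
  exact hx ((heq x).trans h0)

theorem H_add_ne {i j : Fin 7} (hij : i ≠ j) : d.H i + d.H j ≠ 0 := by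
  intro h
  have hall : ∀ x y : Fin 7, x ≠ y → d.H x + d.H y = 0 := by
    intro x y hxy
    obtain ⟨σ, hσ⟩ := exists_perm ![i, j] ![x, y]
      (by intro x y hxy; fin_cases x <;> fin_cases y <;> simp_all [eq_comm])
      (by intro x y hxy; fin_cases x <;> fin_cases y <;> simp_all [eq_comm])
    have h0 : σ i = x := hσ 0
    have h1 : σ j = y := hσ 1
    have h2 := congrArg (rename σ) h
    rw [map_add, d.hHσ, d.hHσ, h0, h1, map_zero] at h2
    exact h2
  have h2 : d.H 0 - d.H 2 = 0 := by
    linear_combination hall 0 1 (by decide) - hall 1 2 (by decide)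
  exact d.H_sub_ne (by decide) h2

theorem lin_ne {x y : k} {u : MvPolynomial (Fin 7) k} (hu : u ≠ 0)
    (h : (C x * d.h1 + C y * d.h2) * u = 0) : x = 0 ∧ y = 0 :=
  d.hlin x y ((mul_eq_zero.1 h).resolve_right hu)

/-- combinations of the generators -/
noncomputable def R (α : k) (β γ : Fin 7 → k) : MvPolynomial (Fin 7) k :=
  C α * d.a + (d.h1 * ∑ i, C (β i) * d.H i + d.h2 * ∑ i, C (γ i) * d.H i)

theorem mem_span_gens {x : MvPolynomial (Fin 7) k} (hx : x ∈ Submodule.span k d.gens) :
    ∃ α β γ, x = d.R α β γ := by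
  classical
  induction hx using Submodule.span_induction with
  | mem x hx =>
    rcases hx with (rfl | ⟨i, rfl⟩) | ⟨i, rfl⟩
    · exact ⟨1, 0, 0, by simp [R]⟩
    · refine ⟨0, Pi.single i 1, 0, ?_⟩
      simp [R, Pi.single_apply]
    · refine ⟨0, 0, Pi.single i 1, ?_⟩
      simp [R, Pi.single_apply]
  | zero => exact ⟨0, 0, 0, by simp [R]⟩
  | add x y _ _ hx hy =>
    obtain ⟨α, β, γ, rfl⟩ := hx
    obtain ⟨α', β', γ', rfl⟩ := hy
    refine ⟨α + α', β + β', γ + γ', ?_⟩
    simp only [R, Pi.add_apply, map_add, add_mul, Finset.sum_add_distrib]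
    ring
  | smul r x _ hx =>
    obtain ⟨α, β, γ, rfl⟩ := hx
    refine ⟨r * α, fun i => r * β i, fun i => r * γ i, ?_⟩
    simp only [R, map_mul, smul_eq_C_mul, mul_assoc, ← Finset.mul_sum]
    ring

theorem sum_swap (β : Fin 7 → k) {l m : Fin 7} (hlm : l ≠ m) :
    ∑ i, C (β i) * d.H i - ∑ i, C (β i) * d.H (Equiv.swap l m i) =
      C (β l - β m) * (d.H l - d.H m) := by
  rw [← Finset.sum_sub_distrib, Finset.sum_eq_add l m hlm]
  · rw [Equiv.swap_apply_left, Equiv.swap_apply_right, map_sub]; ring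
  · intro c _ hc
    rw [Equiv.swap_apply_of_ne_of_ne hc.1 hc.2, sub_self]
  · intro h; exact absurd (Finset.mem_univ _) h
  · intro h; exact absurd (Finset.mem_univ _) h

theorem rename_R (α : k) (β γ : Fin 7 → k) {l m : Fin 7} (hlm : l ≠ m) :
    rename (Equiv.swap l m) (d.R α β γ) =
      - (C α * d.a) + (d.h1 * ∑ i, C (β i) * d.H (Equiv.swap l m i)
        + d.h2 * ∑ i, C (γ i) * d.H (Equiv.swap l m i)) := by
  simp only [R, map_add, map_mul, map_sum, d.h1σ, d.h2σ, d.hHσ, rename_C, d.swap_a hlm]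
  ring

theorem R_sub (α : k) (β γ : Fin 7 → k) {l m : Fin 7} (hlm : l ≠ m) :
    d.R α β γ - rename (Equiv.swap l m) (d.R α β γ) =
      C (2 * α) * d.a + (C (β l - β m) * d.h1 + C (γ l - γ m) * d.h2) * (d.H l - d.H m) := by
  rw [rename_R d α β γ hlm]
  have e1 := d.sum_swap β hlm
  have e2 := d.sum_swap γ hlm
  have e3 : (C (2 * α) : MvPolynomial (Fin 7) k) = C α + C α := by rw [← map_add]; congr 1; ring
  rw [e3]
  simp only [R]
  linear_combination d.h1 * e1 + d.h2 * e2

theorem two_a_ne : d.a + d.a ≠ 0 := by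
  intro h
  apply d.ha0
  have h2 : ((2 : ℕ) : MvPolynomial (Fin 7) k) ≠ 0 := Nat.cast_ne_zero.2 (by norm_num)
  have : ((2 : ℕ) : MvPolynomial (Fin 7) k) * d.a = 0 := by push_cast; linear_combination h
  exact (mul_eq_zero.1 this).resolve_left h2

theorem exists_ne_ne (p q : Fin 7) : ∃ l m : Fin 7, l ≠ m ∧ l ≠ p ∧ l ≠ q ∧ m ≠ p ∧ m ≠ q := by
  revert p q; decide

/-- if `C α * a` lies in the part spanned by the `H i`, then `α = 0`. -/
theorem a_indep (α : k) (β γ : Fin 7 → k) (h : d.R α β γ = 0) : α = 0 := by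
  have h1 := d.R_sub α β γ (show (0 : Fin 7) ≠ 1 by decide)
  rw [h, map_zero, sub_zero] at h1
  have h2 := congrArg (rename (Equiv.swap (2 : Fin 7) 3)) h1
  have s0 : Equiv.swap (2 : Fin 7) 3 0 = 0 := by decide
  have s1 : Equiv.swap (2 : Fin 7) 3 1 = 1 := by decide
  simp only [map_zero, map_add, map_mul, map_sub, rename_C, d.h1σ, d.h2σ, d.hHσ, s0, s1] at h2
  rw [d.swap_a (show (2 : Fin 7) ≠ 3 by decide)] at h2
  simp only [map_add, map_mul, map_sub] at h1
  have h3 : (C 2 * C α) * (d.a + d.a) = 0 := by linear_combination h2 - h1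
  rcases mul_eq_zero.1 h3 with h4 | h4
  · rw [← map_mul, C_eq_zero] at h4
    simpa using h4
  · exact absurd h4 d.two_a_ne

/-- main non-existence statement -/
theorem no_eigen_generator (f : MvPolynomial (Fin 7) k) (hf : d.I = symIdeal f) {p q : Fin 7}
    (hpq : p ≠ q) (c : k) (hc : rename (Equiv.swap p q) f = C c * f) : False := by
  classical
  set D := d.e + d.N with hD
  -- components of elements of `I`
  have hgens : ∀ s ∈ d.gens, s.IsHomogeneous D := by
    rintro s ((rfl | ⟨i, rfl⟩) | ⟨i, rfl⟩)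
    · exact d.hae
    · have := d.h1e.mul (d.hHe i)
      rw [add_comm] at this; exact this
    · have := d.h2e.mul (d.hHe i)
      rw [add_comm] at this; exact this
  have hhc : ∀ s ∈ d.gens, homogeneousComponent D s = s := by
    intro s hs
    rw [homogeneousComponent_of_mem (hgens s hs), if_pos rfl]
  have hI := low_component D d.gens (Submodule.span k d.gens)
    (by
      intro s hs m hm
      rw [homogeneousComponent_of_mem (hgens s hs), if_neg (by omega)])
    (by
      intro s hs
      rw [hhc s hs]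
      exact Submodule.subset_span hs)
  have hfI : f ∈ d.I := by rw [hf]; exact self_mem_symIdeal f
  set g := homogeneousComponent D f with hg
  obtain ⟨α, β, γ, hgR⟩ := d.mem_span_gens (hI f hfI).2
  rw [← hg] at hgR
  set W := Submodule.span k (Set.range fun σ : Equiv.Perm (Fin 7) => rename σ g) with hW
  have hIW := low_component D (Set.range fun σ : Equiv.Perm (Fin 7) => rename σ f) W
    (by
      rintro _ ⟨σ, rfl⟩ m hm
      simp only
      rw [← rename_homogeneousComponent, (hI f hfI).1 m hm, map_zero])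
    (by
      rintro _ ⟨σ, rfl⟩
      simp only
      rw [← rename_homogeneousComponent]
      exact Submodule.subset_span ⟨σ, rfl⟩)
  have hIW' : ∀ s ∈ d.gens, s ∈ W := by
    intro s hs
    have h1 : s ∈ d.I := Ideal.subset_span hs
    rw [hf] at h1
    have h2 := (hIW s h1).2
    rwa [hhc s hs] at h2
  have haW : d.a ∈ W := hIW' _ (Or.inl (Or.inl rfl))
  have h1W : ∀ i, d.h1 * d.H i ∈ W := fun i => hIW' _ (Or.inl (Or.inr ⟨i, rfl⟩))
  have h2W : ∀ i, d.h2 * d.H i ∈ W := fun i => hIW' _ (Or.inr ⟨i, rfl⟩)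
  have hgc : rename (Equiv.swap p q) g = C c * g := by
    rw [hg, rename_homogeneousComponent, hc, homogeneousComponent_C_mul]
  have hg0 : g ≠ 0 := by
    intro h0
    have : W = ⊥ := by
      rw [hW, h0]
      simp
    rw [this] at haW
    exact d.ha0 ((Submodule.mem_bot k).1 haW)
  have hcc : c * c = 1 := by
    have h1 := congrArg (rename (Equiv.swap p q)) hgc
    rw [rename_rename, map_mul, rename_C, hgc] at h1
    have h2 : (⇑(Equiv.swap p q) ∘ ⇑(Equiv.swap p q)) = id := by
      funext x; simp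
    rw [h2, rename_id_apply] at h1
    have h3 : (C (c * c - 1)) * g = 0 := by
      rw [map_sub, map_mul, map_one]; linear_combination -h1
    rcases mul_eq_zero.1 h3 with h4 | h4
    · rw [C_eq_zero] at h4
      linear_combination h4
    · exact absurd h4 hg0
  obtain ⟨l0, m0, hlm, hlp, hlq, hmp, hmq⟩ := exists_ne_ne p q
  have hc1 : c = 1 ∨ c = -1 := by
    have : (c - 1) * (c + 1) = 0 := by linear_combination hcc
    rcases mul_eq_zero.1 this with h | h
    · left; linear_combination h
    · right; linear_combination h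
  -- the action of `swap p q` on a difference
  have hτ : ∀ l m : Fin 7, l ≠ m → l ≠ p → l ≠ q → m ≠ p → m ≠ q →
      rename (Equiv.swap p q) (g - rename (Equiv.swap l m) g) = C c * (g - rename (Equiv.swap l m) g) := by
    intro l m hlm hlp hlq hmp hmq
    have hcomm : (⇑(Equiv.swap p q) ∘ ⇑(Equiv.swap l m)) = (⇑(Equiv.swap l m) ∘ ⇑(Equiv.swap p q)) := by
      have hd : Equiv.Perm.Disjoint (Equiv.swap p q) (Equiv.swap l m) := by
        intro x
        by_cases h1 : x = p
        · right; subst h1; exact Equiv.swap_apply_of_ne_of_ne hlp.symm hmp.symm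
        · by_cases h2 : x = q
          · right; subst h2; exact Equiv.swap_apply_of_ne_of_ne hlq.symm hmq.symm
          · left; exact Equiv.swap_apply_of_ne_of_ne h1 h2
      have h3 := hd.commute.eq
      funext x
      exact congrArg (fun σ : Equiv.Perm (Fin 7) => σ x) h3
    rw [map_sub, rename_rename, hcomm, ← rename_rename, hgc, map_mul, rename_C]
    ring
  rcases hc1 with rfl | rfl
  · -- c = 1 : the coefficient of `a` vanishes
    have h1 := hτ l0 m0 hlm hlp hlq hmp hmq
    rw [map_one, one_mul, hgR, d.R_sub α β γ hlm] at h1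
    have s0 : Equiv.swap p q l0 = l0 := Equiv.swap_apply_of_ne_of_ne hlp hlq
    have s1 : Equiv.swap p q m0 = m0 := Equiv.swap_apply_of_ne_of_ne hmp hmq
    simp only [map_add, map_mul, map_sub, rename_C, d.h1σ, d.h2σ, d.hHσ, s0, s1, d.swap_a hpq] at h1
    have h2 : (C 2 * C α) * (d.a + d.a) = 0 := by linear_combination -h1
    have hα : α = 0 := by
      rcases mul_eq_zero.1 h2 with h4 | h4
      · rw [← map_mul, C_eq_zero] at h4
        simpa using h4
      · exact absurd h4 d.two_a_ne
    subst hα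
    have hWR : ∀ x ∈ W, ∃ β γ, x = d.R 0 β γ := by
      intro x hx
      rw [hW] at hx
      induction hx using Submodule.span_induction with
      | mem x hx =>
        obtain ⟨σ, rfl⟩ := hx
        refine ⟨fun i => β (σ.symm i), fun i => γ (σ.symm i), ?_⟩
        simp only
        rw [hgR]
        simp only [R, map_add, map_mul, map_sum, d.h1σ, d.h2σ, d.hHσ, rename_C, map_zero, zero_mul]
        rw [← Equiv.sum_comp σ (fun i => C (β (σ.symm i)) * d.H i),
          ← Equiv.sum_comp σ (fun i => C (γ (σ.symm i)) * d.H i)]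
        simp
      | zero => exact ⟨0, 0, by simp [R]⟩
      | add x y _ _ hx hy =>
        obtain ⟨β, γ, rfl⟩ := hx
        obtain ⟨β', γ', rfl⟩ := hy
        refine ⟨β + β', γ + γ', ?_⟩
        simp only [R, Pi.add_apply, map_add, add_mul, Finset.sum_add_distrib, map_zero]
        ring
      | smul r x _ hx =>
        obtain ⟨β, γ, rfl⟩ := hx
        refine ⟨fun i => r * β i, fun i => r * γ i, ?_⟩
        simp only [R, map_mul, smul_eq_C_mul, mul_assoc, ← Finset.mul_sum, map_zero]
        ring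
    obtain ⟨β', γ', h3⟩ := hWR _ haW
    have h4 : d.R (-1) β' γ' = 0 := by
      have : d.R (-1) β' γ' = d.R 0 β' γ' - d.a := by
        simp only [R, map_neg, map_one, map_zero]; ring
      rw [this, ← h3, sub_self]
    have := d.a_indep _ _ _ h4
    simp at this
  · -- c = -1
    have hconst : ∀ l m : Fin 7, l ≠ m → l ≠ p → l ≠ q → m ≠ p → m ≠ q → β l = β m ∧ γ l = γ m := by
      intro l m hlm hlp hlq hmp hmq
      have h1 := hτ l m hlm hlp hlq hmp hmq
      rw [hgR, d.R_sub α β γ hlm] at h1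
      have s0 : Equiv.swap p q l = l := Equiv.swap_apply_of_ne_of_ne hlp hlq
      have s1 : Equiv.swap p q m = m := Equiv.swap_apply_of_ne_of_ne hmp hmq
      simp only [map_add, map_mul, map_sub, rename_C, d.h1σ, d.h2σ, d.hHσ, s0, s1, d.swap_a hpq,
        map_neg, map_one] at h1
      have h2 : (C (2 * (β l - β m)) * d.h1 + C (2 * (γ l - γ m)) * d.h2) * (d.H l - d.H m) = 0 := by
        have e2 : (C (2 : k) : MvPolynomial (Fin 7) k) = 2 := by
          rw [show (2 : k) = 1 + 1 by norm_num, map_add, map_one]; norm_num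
        simp only [map_mul, map_sub, e2]
        linear_combination h1
      have h3 := d.lin_ne (d.H_sub_ne hlm) h2
      constructor
      · have := h3.1
        have h5 : β l - β m = 0 := by
          rcases mul_eq_zero.1 this with h | h
          · exact absurd h two_ne_zero
          · exact h
        linear_combination h5
      · have := h3.2
        have h5 : γ l - γ m = 0 := by
          rcases mul_eq_zero.1 this with h | h
          · exact absurd h two_ne_zero
          · exact h
        linear_combination h5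
    -- normal form of g
    have hform : ∀ δ : Fin 7 → k, (∀ l, l ≠ p → l ≠ q → δ l = δ l0) →
        ∑ i, C (δ i) * d.H i = C (δ p - δ l0) * d.H p + C (δ q - δ l0) * d.H q := by
      intro δ hδ
      have h1 : ∑ i, C (δ i) * d.H i = ∑ i, C (δ i - δ l0) * d.H i := by
        simp only [map_sub, sub_mul, Finset.sum_sub_distrib]
        rw [← Finset.mul_sum, d.hHs]; simp
      rw [h1, Finset.sum_eq_add p q hpq]
      · intro i _ hi
        rw [hδ i hi.1 hi.2, sub_self, map_zero, zero_mul]
      · intro h; exact absurd (Finset.mem_univ _) h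
      · intro h; exact absurd (Finset.mem_univ _) h
    have hβ : ∀ l, l ≠ p → l ≠ q → β l = β l0 := by
      intro l h1 h2
      by_cases h : l = l0
      · rw [h]
      · exact (hconst l l0 h h1 h2 hlp hlq).1
    have hγ : ∀ l, l ≠ p → l ≠ q → γ l = γ l0 := by
      intro l h1 h2
      by_cases h : l = l0
      · rw [h]
      · exact (hconst l l0 h h1 h2 hlp hlq).2
    have hg1 : g = C α * d.a + ((C (β p - β l0) * d.h1 + C (γ p - γ l0) * d.h2) * d.H p +
        (C (β q - β l0) * d.h1 + C (γ q - γ l0) * d.h2) * d.H q) := by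
      rw [hgR, R, hform β hβ, hform γ hγ]; ring
    have h1 := hgc
    rw [hg1] at h1
    simp only [map_add, map_mul, rename_C, d.h1σ, d.h2σ, d.hHσ, d.swap_a hpq, Equiv.swap_apply_left,
      Equiv.swap_apply_right, map_neg, map_one] at h1
    have h2 : (C ((β p - β l0) + (β q - β l0)) * d.h1 + C ((γ p - γ l0) + (γ q - γ l0)) * d.h2) *
        (d.H p + d.H q) = 0 := by
      simp only [map_add]
      linear_combination h1
    have h3 := d.lin_ne (d.H_add_ne hpq) h2
    set x := β p - β l0 with hx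
    set y := γ p - γ l0 with hy
    have hx' : β q - β l0 = -x := by linear_combination h3.1
    have hy' : γ q - γ l0 = -y := by linear_combination h3.2
    have hg2 : g = C α * d.a + (C x * d.h1 + C y * d.h2) * (d.H p - d.H q) := by
      rw [hg1, hx', hy', map_neg, map_neg]; ring
    set r := C x * d.h1 + C y * d.h2 with hr
    have hrσ : ∀ σ : Equiv.Perm (Fin 7), rename σ r = r := by
      intro σ; rw [hr]; simp only [map_add, map_mul, rename_C, d.h1σ, d.h2σ]
    have hWR : ∀ z ∈ W, ∃ (α' : k) (δ : Fin 7 → k), z = C α' * d.a + r * ∑ i, C (δ i) * d.H i := by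
      intro z hz
      rw [hW] at hz
      induction hz using Submodule.span_induction with
      | mem z hz =>
        obtain ⟨σ, rfl⟩ := hz
        refine ⟨α * ((Equiv.Perm.sign σ : ℤ) : k), Pi.single (σ p) 1 - Pi.single (σ q) 1, ?_⟩
        simp only
        rw [hg2]
        simp only [map_add, map_mul, map_sub, rename_C, hrσ, d.hHσ, d.haσ, Pi.sub_apply, sub_mul,
          Finset.sum_sub_distrib]
        simp [Pi.single_apply]
        ring
      | zero => exact ⟨0, 0, by simp⟩
      | add z z' _ _ hz hz' =>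
        obtain ⟨α1, δ1, rfl⟩ := hz
        obtain ⟨α2, δ2, rfl⟩ := hz'
        refine ⟨α1 + α2, δ1 + δ2, ?_⟩
        simp only [Pi.add_apply, map_add, add_mul, Finset.sum_add_distrib]
        ring
      | smul t z _ hz =>
        obtain ⟨α1, δ1, rfl⟩ := hz
        refine ⟨t * α1, fun i => t * δ1 i, ?_⟩
        simp only [map_mul, smul_eq_C_mul, mul_assoc, ← Finset.mul_sum]
        ring
    have hkey : ∀ h : MvPolynomial (Fin 7) k, (∀ σ : Equiv.Perm (Fin 7), rename σ h = h) →
        h * (d.H 0 - d.H 1) ∈ W → ∃ t : k, 2 * h = C t * r := by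
      intro h hh hmem
      obtain ⟨α', δ, h4⟩ := hWR _ hmem
      have h5 := congrArg (rename (Equiv.swap (0 : Fin 7) 1)) h4
      simp only [map_add, map_mul, map_sub, map_sum, rename_C, hrσ, hh, d.hHσ,
        d.swap_a (show (0 : Fin 7) ≠ 1 by decide), Equiv.swap_apply_left, Equiv.swap_apply_right] at h5
      have e1 := d.sum_swap δ (show (0 : Fin 7) ≠ 1 by decide)
      have h6 : 2 * h * (d.H 0 - d.H 1) = C α' * (d.a + d.a) + r * (C (δ 0 - δ 1) * (d.H 0 - d.H 1)) := by
        rw [← e1]; linear_combination h4 - h5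
      have h7 := congrArg (rename (Equiv.swap (2 : Fin 7) 3)) h6
      have s0 : Equiv.swap (2 : Fin 7) 3 0 = 0 := by decide
      have s1 : Equiv.swap (2 : Fin 7) 3 1 = 1 := by decide
      simp only [map_add, map_mul, map_sub, rename_C, hrσ, hh, d.hHσ, s0, s1, map_ofNat,
        d.swap_a (show (2 : Fin 7) ≠ 3 by decide)] at h7
      refine ⟨δ 0 - δ 1, ?_⟩
      have h8 : (2 : MvPolynomial (Fin 7) k) * ((2 * h - C (δ 0 - δ 1) * r) * (d.H 0 - d.H 1)) = 0 := by
        rw [map_sub] at h6 ⊢
        linear_combination h6 + h7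
      have h9 : (2 * h - C (δ 0 - δ 1) * r) = 0 := by
        rcases mul_eq_zero.1 h8 with h10 | h10
        · exact absurd h10 two_ne_zero
        · exact (mul_eq_zero.1 h10).resolve_right (d.H_sub_ne (by decide))
      linear_combination h9
    obtain ⟨t1, ht1⟩ := hkey d.h1 d.h1σ (by rw [mul_sub]; exact W.sub_mem (h1W 0) (h1W 1))
    obtain ⟨t2, ht2⟩ := hkey d.h2 d.h2σ (by rw [mul_sub]; exact W.sub_mem (h2W 0) (h2W 1))
    have e2 : (C (2 : k) : MvPolynomial (Fin 7) k) = 2 := by
      rw [show (2 : k) = 1 + 1 by norm_num, map_add, map_one]; norm_num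
    have k1 := d.hlin (2 - t1 * x) (- (t1 * y)) (by
      rw [hr] at ht1
      simp only [map_sub, map_neg, map_mul, e2]
      linear_combination ht1)
    have k2 := d.hlin (- (t2 * x)) (2 - t2 * y) (by
      rw [hr] at ht2
      simp only [map_sub, map_neg, map_mul, e2]
      linear_combination ht2)
    have hxne : x ≠ 0 := by
      intro h0; rw [h0] at k1; simp at k1
    have ht1ne : t1 ≠ 0 := by
      intro h0; rw [h0] at k1; simp at k1
    have hy0 : y = 0 := by
      have := k1.2
      rw [neg_eq_zero] at this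
      exact (mul_eq_zero.1 this).resolve_left ht1ne
    rw [hy0] at k2
    simp at k2

end Data
end final

section assemble
open MvPolynomial

variable {k : Type*} [Field k] [CharZero k]

/-- power sums -/
noncomputable def p1 (k : Type*) [Field k] : MvPolynomial (Fin 7) k := ∑ i, X i
noncomputable def p2 (k : Type*) [Field k] : MvPolynomial (Fin 7) k := ∑ i, X i ^ 2
/-- Vandermonde determinant -/
noncomputable def vdm (k : Type*) [Field k] : MvPolynomial (Fin 7) k :=
  (Matrix.vandermonde (fun i : Fin 7 => (X i : MvPolynomial (Fin 7) k))).det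

omit [CharZero k] in
theorem p1_hom : (p1 k).IsHomogeneous 1 := IsHomogeneous.sum _ _ _ fun i _ => isHomogeneous_X k i

omit [CharZero k] in
theorem p2_hom : (p2 k).IsHomogeneous 2 :=
  IsHomogeneous.sum _ _ _ fun i _ => isHomogeneous_X_pow i 2

omit [CharZero k] in
theorem p1_sym (σ : Equiv.Perm (Fin 7)) : rename σ (p1 k) = p1 k := by
  simp only [p1, map_sum, rename_X]
  exact Equiv.sum_comp σ (fun i => (X i : MvPolynomial (Fin 7) k))

omit [CharZero k] in
theorem p2_sym (σ : Equiv.Perm (Fin 7)) : rename σ (p2 k) = p2 k := by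
  simp only [p2, map_sum, map_pow, rename_X]
  exact Equiv.sum_comp σ (fun i => (X i : MvPolynomial (Fin 7) k) ^ 2)

omit [CharZero k] in
theorem vdm_hom : (vdm k).IsHomogeneous 21 := by
  rw [vdm, Matrix.det_vandermonde]
  have h1 : ∀ i : Fin 7, (∏ j ∈ Finset.Ioi i, ((X j : MvPolynomial (Fin 7) k) - X i)).IsHomogeneous
      (∑ _j ∈ Finset.Ioi i, 1) := by
    intro i
    exact IsHomogeneous.prod _ _ _ fun j _ => (isHomogeneous_X k j).sub (isHomogeneous_X k i)
  have h2 := IsHomogeneous.prod Finset.univ _ _ fun i _ => h1 i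
  have h3 : ∑ i : Fin 7, ∑ _j ∈ Finset.Ioi i, 1 = 21 := by decide
  rw [h3] at h2
  exact h2

omit [CharZero k] in
theorem vdm_ne : vdm k ≠ 0 := by
  rw [vdm, Matrix.det_vandermonde_ne_zero_iff]
  exact X_injective

omit [CharZero k] in
theorem vdm_rename (σ : Equiv.Perm (Fin 7)) :
    rename σ (vdm k) = C ((Equiv.Perm.sign σ : ℤ) : k) * vdm k := by
  have h1 : rename σ (vdm k) =
      ((Matrix.vandermonde (fun i : Fin 7 => (X i : MvPolynomial (Fin 7) k))).submatrix σ id).det := by
    rw [vdm, AlgHom.map_det]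
    congr 1
    ext i j
    simp [Matrix.vandermonde_apply]
  rw [h1, Matrix.det_permute]
  simp [vdm]

theorem p1_ne : p1 k ≠ 0 := by
  intro h
  have := congrArg (MvPolynomial.eval (fun _ => (1 : k))) h
  simp [p1] at this

theorem p_lin (x y : k) (h : C x * (p1 k ^ 21) + C y * (p1 k ^ 19 * p2 k) = 0) : x = 0 ∧ y = 0 := by
  have h1 : p1 k ^ 19 * (C x * p1 k ^ 2 + C y * p2 k) = 0 := by linear_combination h
  have h2 := (mul_eq_zero.1 h1).resolve_left (pow_ne_zero _ p1_ne)
  have e1 := congrArg (MvPolynomial.eval (fun i : Fin 7 => if i = 0 then (1 : k) else 0)) h2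
  have e2 := congrArg (MvPolynomial.eval (fun i : Fin 7 => if i = 0 ∨ i = 1 then (1 : k) else 0)) h2
  simp [p1, p2, Fin.sum_univ_succ] at e1 e2
  have hy : y = 0 := by
    have : (2 : k) * y = 0 := by linear_combination 4 * e1 - e2
    exact (mul_eq_zero.1 this).resolve_left two_ne_zero
  exact ⟨by rw [hy] at e1; simpa using e1, hy⟩

theorem exists_data (s : k) (hs : s ^ 2 = -14) : Nonempty (Data k) := by
  obtain ⟨e, H, hH0, hHe, hHσ, hHs, hHq⟩ := exists_poly_family k s hs
  exact ⟨{
    e := e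
    N := 21
    H := H
    h1 := p1 k ^ 21
    h2 := p1 k ^ 19 * p2 k
    a := vdm k * p1 k ^ e
    hH0 := hH0
    hHe := hHe
    hHσ := hHσ
    hHs := hHs
    hHq := hHq
    h1σ := fun σ => by rw [map_pow, p1_sym]
    h2σ := fun σ => by rw [map_mul, map_pow, p1_sym, p2_sym]
    h1e := by simpa using p1_hom.pow 21
    h2e := by simpa using (p1_hom.pow 19).mul p2_hom
    hlin := p_lin
    ha0 := mul_ne_zero vdm_ne (pow_ne_zero _ p1_ne)
    hae := by
      have := (vdm_hom (k := k)).mul (p1_hom.pow e)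
      rw [one_mul, add_comm] at this
      exact this
    haσ := fun σ => by rw [map_mul, map_pow, p1_sym, vdm_rename]; ring }⟩

theorem main (s : k) (hs : s ^ 2 = -14) : ∃ I : Ideal (MvPolynomial (Fin 7) k),
    IsPSI I ∧ IsPSI (I ^ 2) ∧ ∀ f : MvPolynomial (Fin 7) k, I = symIdeal f →
      ∀ i j : Fin 7, i ≠ j → ∀ c : k, rename (Equiv.swap i j) f ≠ C c * f := by
  obtain ⟨d⟩ := exists_data s hs
  refine ⟨d.I, ⟨d.F, _, d.F_hom, d.I_eq⟩, ⟨d.F2, _, d.F2_hom, d.I_sq_eq⟩, ?_⟩
  intro f hf i j hij c hc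
  exact d.no_eigen_generator f hf hij c hc

end assemble
end Pool.Agent.Work.MP_e01960_al
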